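import Pool.Agent.helper40.BZ.SerDefs

/-! # The closed form from the recursions of the leading coefficients -/

set_option autoImplicit false

namespace Pool.BZ

/-- the `k`-th factor of the closed form -/
noncomputable def fac (k : ℕ) : ℚ :=
  (6 * 4 ^ (k + 1) * (2 * k + 1) * (k + 1) * (k + 1).factorial *
    (4 * k + 1).factorial * (4 * k + 3).factorial /
    ((3 * k + 1).factorial * ((3 * k + 3).factorial) ^ 2) : ℚ)

lemma closed_eq (n : ℕ) : closed n = ∏ k ∈ Finset.range n, fac k := rfl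

lemma fac_zero : fac 0 = 4 := by
  unfold fac
  norm_num [Nat.factorial]

lemma fac_succ (k : ℕ) : fac (k + 1) = fac k *
    (256 * (2 * k + 3) ^ 2 * (4 * k + 3) * (4 * k + 5) ^ 2 * (4 * k + 7) /
      (27 * (3 * k + 2) * (3 * k + 4) ^ 3 * (3 * k + 5) ^ 2) : ℚ) := by
  have e1 : (4 * (k + 1) + 1).factorial =
      (4 * k + 5) * ((4 * k + 4) * ((4 * k + 3) * ((4 * k + 2) * (4 * k + 1).factorial))) := by
    have : 4 * (k + 1) + 1 = 4 * k + 1 + 1 + 1 + 1 + 1 := by ring
    rw [this, Nat.factorial_succ, Nat.factorial_succ, Nat.factorial_succ, Nat.factorial_succ]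
  have e2 : (4 * (k + 1) + 3).factorial =
      (4 * k + 7) * ((4 * k + 6) * ((4 * k + 5) * ((4 * k + 4) * (4 * k + 3).factorial))) := by
    have : 4 * (k + 1) + 3 = 4 * k + 3 + 1 + 1 + 1 + 1 := by ring
    rw [this, Nat.factorial_succ, Nat.factorial_succ, Nat.factorial_succ, Nat.factorial_succ]
  have e3 : (3 * (k + 1) + 1).factorial =
      (3 * k + 4) * ((3 * k + 3) * ((3 * k + 2) * (3 * k + 1).factorial)) := by
    have : 3 * (k + 1) + 1 = 3 * k + 1 + 1 + 1 + 1 := by ring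
    rw [this, Nat.factorial_succ, Nat.factorial_succ, Nat.factorial_succ]
  have e4 : (3 * (k + 1) + 3).factorial =
      (3 * k + 6) * ((3 * k + 5) * ((3 * k + 4) * (3 * k + 3).factorial)) := by
    have : 3 * (k + 1) + 3 = 3 * k + 3 + 1 + 1 + 1 := by ring
    rw [this, Nat.factorial_succ, Nat.factorial_succ, Nat.factorial_succ]
  have e5 : (k + 1 + 1).factorial = (k + 2) * (k + 1).factorial := Nat.factorial_succ _
  unfold fac
  rw [e1, e2, e3, e4, e5]
  have h1 : ((3 * k + 1).factorial : ℚ) ≠ 0 := by exact_mod_cast (Nat.factorial_ne_zero _)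
  have h2 : ((3 * k + 3).factorial : ℚ) ≠ 0 := by exact_mod_cast (Nat.factorial_ne_zero _)
  push_cast
  field_simp
  ring

/-- `α_n` -/
noncomputable def alp (n : ℕ) : ℚ := (4 * n + 1) * (2 * n + 1) / (6 * (3 * n + 1) * (3 * n + 2))

/-- `γ_n` -/
noncomputable def gam (n : ℕ) : ℚ :=
  (4 * n - 1) * (4 * n + 1) * (4 * n + 3) * (2 * n + 1) /
    (72 * (3 * n - 1) * (3 * n + 1) ^ 2 * (3 * n + 2))

theorem closed_of_rec (ap am : ℕ → ℚ) (hp1 : ap 1 = 4) (hm1 : am 1 = 2)
    (hm : ∀ k, am (k + 2) = ap (k + 1) / (4 * alp (k + 1)))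
    (hp : ∀ k, ap (k + 2) = am (k + 1) / (4 * gam (k + 1))) (n : ℕ) :
    (∀ k, 0 < ap (k + 1) ∧ 0 < am (k + 1)) ∧
    ∏ k ∈ Finset.range n, ((4 : ℚ) ^ (4 * k + 3) / (2 * ap (k + 1) * am (k + 1))) = closed n := by
  have halp : ∀ k, 0 < alp (k + 1) := fun k => by unfold alp; positivity
  have hgam : ∀ k, 0 < gam (k + 1) := fun k => by
    unfold gam
    push_cast
    have : (0 : ℚ) ≤ k := Nat.cast_nonneg k
    apply div_pos
    · apply mul_pos (mul_pos (mul_pos _ _) _) <;> linarith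
    · have h1 : (0 : ℚ) < 3 * (k + 1) - 1 := by linarith
      positivity
  have hpos : ∀ k, 0 < ap (k + 1) ∧ 0 < am (k + 1) := by
    intro k
    induction k with
    | zero => rw [hp1, hm1]; norm_num
    | succ k ih =>
      rw [hm, hp]
      exact ⟨div_pos ih.2 (mul_pos (by norm_num) (hgam k)),
        div_pos ih.1 (mul_pos (by norm_num) (halp k))⟩
  refine ⟨hpos, ?_⟩
  have hfac : ∀ k, (4 : ℚ) ^ (4 * k + 3) / (2 * ap (k + 1) * am (k + 1)) = fac k := by
    intro k
    induction k with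
    | zero => rw [fac_zero, hp1, hm1]; norm_num
    | succ k ih =>
      rw [fac_succ, ← ih, hm, hp]
      have h1 := (hpos k).1.ne'
      have h2 := (hpos k).2.ne'
      have h0 : (0 : ℚ) ≤ k := Nat.cast_nonneg k
      unfold alp gam
      push_cast
      have h3 : (4 * ((k : ℚ) + 1) - 1) = 4 * k + 3 := by ring
      have h4 : (3 * ((k : ℚ) + 1) - 1) = 3 * k + 2 := by ring
      have h5 : (4 * ((k : ℚ) + 1) + 1) = 4 * k + 5 := by ring
      have h6 : (4 * ((k : ℚ) + 1) + 3) = 4 * k + 7 := by ring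
      have h7 : (2 * ((k : ℚ) + 1) + 1) = 2 * k + 3 := by ring
      have h8 : (3 * ((k : ℚ) + 1) + 1) = 3 * k + 4 := by ring
      have h9 : (3 * ((k : ℚ) + 1) + 2) = 3 * k + 5 := by ring
      rw [h3, h4, h5, h6, h7, h8, h9]
      field_simp
      ring
  rw [closed_eq]
  exact Finset.prod_congr rfl fun k _ => hfac k

end Pool.BZ
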