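import Pool.Agent.helper40.BZ.Count
import Pool.Agent.helper40.BZ.Closed
import Pool.Agent.helper86.BZ.Det

/-! # The number of type-112 tilings of the `(3n+1, 3n+1)`-benzel -/

set_option autoImplicit false

namespace Pool.BZ

theorem T_eq_closed (n : ℕ) : (T n : ℚ) = closed n := by
  have h1 := Pool.Agent.helper86.BZ.det_formula n
  rw [← T_eq_det n] at h1
  rw [← h1, abs_of_nonneg (Nat.cast_nonneg _)]

lemma closed_succ (n : ℕ) : closed (n + 1) = closed n * fac n := by
  rw [closed_eq, closed_eq, Finset.prod_range_succ]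

lemma fac_pos (n : ℕ) : 0 < fac n := by
  unfold fac
  have h1 : (0 : ℚ) < ((3 * n + 1).factorial : ℚ) := by exact_mod_cast Nat.factorial_pos _
  have h2 : (0 : ℚ) < ((3 * n + 3).factorial : ℚ) := by exact_mod_cast Nat.factorial_pos _
  have h3 : (0 : ℚ) < ((n + 1).factorial : ℚ) := by exact_mod_cast Nat.factorial_pos _
  have h4 : (0 : ℚ) < ((4 * n + 1).factorial : ℚ) := by exact_mod_cast Nat.factorial_pos _
  have h5 : (0 : ℚ) < ((4 * n + 3).factorial : ℚ) := by exact_mod_cast Nat.factorial_pos _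
  positivity

lemma closed_pos (n : ℕ) : 0 < closed n := by
  rw [closed_eq]
  exact Finset.prod_pos fun k _ => fac_pos k

theorem T_ratio (n : ℕ) : (T n : ℚ) * T (n + 2) / (T (n + 1) : ℚ) ^ 2 =
    256 * (4 * n + 3) * (4 * n + 5) ^ 2 * (4 * n + 7) * (2 * n + 3) ^ 2 /
      (27 * (3 * n + 2) * (3 * n + 4) ^ 3 * (3 * n + 5) ^ 2) := by
  rw [T_eq_closed, T_eq_closed, T_eq_closed, closed_succ (n + 1), closed_succ n, fac_succ n]
  have h1 := (closed_pos n).ne'
  have h2 := (fac_pos n).ne'
  field_simp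

lemma T_one : T 1 = 4 := by
  have h : (T 1 : ℚ) = 4 := by
    rw [T_eq_closed, closed_succ, fac_zero, closed_eq]
    simp
  exact_mod_cast h

lemma T_two : T 2 = 224 := by
  have h : (T 2 : ℚ) = 224 := by
    rw [T_eq_closed, closed_succ, closed_succ, fac_succ, fac_zero, closed_eq]
    norm_num
  exact_mod_cast h

end Pool.BZ
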