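import Mathlib

/-! # The power series behind type-112 tilings of benzels: definitions -/

set_option autoImplicit false

namespace Pool.BZ

open PowerSeries

/-- `1/(1-X)` -/
noncomputable def geo : PowerSeries ℚ := PowerSeries.mk (fun _ => 1)

/-- `ω = X(1+X)/(1-X)` -/
noncomputable def om : PowerSeries ℚ := X * (1 + X) * geo

/-- `𝒯 f`: multiply by `(1+X)/(1-X)`, divide by `X`, drop the (new) constant term. -/
noncomputable def TT (f : PowerSeries ℚ) : PowerSeries ℚ :=
  PowerSeries.mk (fun m => if m = 0 then 0 else coeff (m + 1) ((1 + X) * geo * f))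

/-- the closed form -/
noncomputable def closed (n : ℕ) : ℚ :=
  ∏ k ∈ Finset.range n, (6 * 4 ^ (k + 1) * (2 * k + 1) * (k + 1) * (k + 1).factorial *
    (4 * k + 1).factorial * (4 * k + 3).factorial /
    ((3 * k + 1).factorial * ((3 * k + 3).factorial) ^ 2) : ℚ)

end Pool.BZ
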