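import Pool.Agent.helper40.BZ.RightStep
import Pool.Agent.helper40.BZ.SerDefs

/-! # The number of tilings as a determinant -/

set_option autoImplicit false

namespace Pool.BZ

open Finset PowerSeries

lemma one_sub_mul_geo : (1 - X : PowerSeries ℚ) * geo = 1 := by
  rw [mul_comm]
  exact PowerSeries.mk_one_mul_one_sub_eq_one ℚ

lemma coeff_geo_mul (f : PowerSeries ℚ) (x : ℕ) :
    coeff (x + 1) (geo * f) = coeff x (geo * f) + coeff (x + 1) f := by
  have h : f = geo * f - X * (geo * f) := by
    have : geo * f - X * (geo * f) = ((1 - X) * geo) * f := by ring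
    rw [this, one_sub_mul_geo, one_mul]
  have h2 := congrArg (coeff (x + 1)) h
  rw [map_sub, coeff_succ_X_mul] at h2
  linarith

lemma coeff_zero_geo_mul (f : PowerSeries ℚ) : coeff 0 (geo * f) = coeff 0 f := by
  rw [coeff_zero_eq_constantCoeff, map_mul]
  have : constantCoeff geo = (1 : ℚ) := by
    rw [← coeff_zero_eq_constantCoeff_apply]
    simp [geo]
  rw [this, one_mul]

lemma coeff_zero_om_pow (i : ℕ) : coeff 0 (om ^ (i + 1)) = (0 : ℚ) := by
  rw [coeff_zero_eq_constantCoeff, map_pow]
  have : constantCoeff om = (0 : ℚ) := by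
    unfold om
    rw [map_mul, map_mul]
    simp
  rw [this]
  simp

/-- left column vectors -/
noncomputable def cL (y i : ℕ) : ℚ := coeff y (om ^ (i + 1))

/-- left auxiliary vectors -/
noncomputable def hL (x i : ℕ) : ℚ := coeff x (X * (geo * om ^ i))

lemma hL_zero : hL 0 = 0 := by
  funext i
  unfold hL
  simp

lemma hL_one : hL 1 = e0 := by
  funext i
  unfold hL
  have : coeff 1 (X * (geo * om ^ i)) = coeff 0 (geo * om ^ i) := coeff_succ_X_mul 0 _
  rw [this, coeff_zero_geo_mul]
  cases i with
  | zero => simp [e0]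
  | succ i => rw [coeff_zero_om_pow]; rfl

lemma hL_succ (x : ℕ) : hL (x + 2) = hL (x + 1) + shift (cL (x + 1)) := by
  funext i
  rw [Pi.add_apply]
  unfold hL
  rw [coeff_succ_X_mul, coeff_succ_X_mul, coeff_geo_mul]
  congr 1
  cases i with
  | zero =>
    rw [pow_zero, coeff_one]
    simp [shift]
  | succ i => rfl

lemma cL_succ (x : ℕ) : cL (x + 1) = hL (x + 1) + hL x := by
  funext i
  rw [Pi.add_apply]
  unfold hL cL
  have : om ^ (i + 1) = X * (geo * om ^ i) + X * (X * (geo * om ^ i)) := by
    rw [pow_succ']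
    nth_rewrite 1 [om]
    ring
  rw [this, map_add, coeff_succ_X_mul x (X * (geo * om ^ i))]

/-- right column vectors -/
noncomputable def cR (j y i : ℕ) : ℚ := coeff y (TT^[j] (om ^ (i + 1)))

/-- right auxiliary vectors -/
noncomputable def hR (j x i : ℕ) : ℚ := coeff x (geo * TT^[j] (om ^ (i + 1)))

lemma cR_zero (j i : ℕ) : coeff 0 (TT^[j] (om ^ (i + 1))) = (0 : ℚ) := by
  cases j with
  | zero => exact coeff_zero_om_pow i
  | succ j =>
    rw [Function.iterate_succ_apply']
    unfold TT
    simp

lemma hR_one (j : ℕ) : hR j 1 = cR j 1 := by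
  funext i
  unfold hR cR
  rw [coeff_geo_mul _ 0, coeff_zero_geo_mul, cR_zero, zero_add]

lemma hR_succ (j x : ℕ) : hR j (x + 2) = hR j (x + 1) + cR j (x + 2) := by
  funext i
  rw [Pi.add_apply]
  unfold hR cR
  rw [coeff_geo_mul _ (x + 1)]

lemma cR_succ (j x : ℕ) : cR (j + 1) (x + 1) = hR j (x + 1) + hR j (x + 2) := by
  funext i
  rw [Pi.add_apply]
  unfold hR cR
  rw [Function.iterate_succ_apply']
  generalize TT^[j] (om ^ (i + 1)) = f
  unfold TT
  rw [coeff_mk, if_neg (Nat.succ_ne_zero x)]
  have : (1 + X) * geo * f = geo * f + X * (geo * f) := by ring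
  rw [this, map_add, coeff_succ_X_mul]
  ring

theorem left_level (n : ℕ) : ∀ l : ℕ, l ≤ n → ∀ α : List ℕ, SL 1 (n + l) α → α.length = l →
    (tt n (2 * l) α.toFinset ∅ : ℚ) = D l (α.map cL) := by
  intro l
  induction l with
  | zero =>
    intro _ α _ hl
    have : α = [] := List.length_eq_zero_iff.1 hl
    subst this
    rw [D_nil]
    simp only [List.toFinset_nil, Nat.mul_zero]
    rw [tt_zero]
    norm_num
  | succ l ih =>
    intro hl α hα hlen
    have ih' := ih (by omega)
    have ha := left_a' (n := n) (M := 2 * l) (N := n + l) (l := l) (by omega) cL hL hL_one hL_succ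
      ih' (by unfold size; rw [if_pos (by omega)]; omega)
    exact left_b' (n := n) (M := 2 * l + 1) (N := n + l + 1) (l := l + 1) (by omega) hL cL hL_zero
      cL_succ ha (by unfold size; rw [if_pos (by omega)]; omega) α hα hlen

theorem right_level (n : ℕ) : ∀ j : ℕ, j ≤ n → ∀ α : List ℕ, SL 1 (2 * n - j) α → α.length = n →
    (tt n (2 * (n + j)) α.toFinset ∅ : ℚ) = D n (α.map (cR j)) := by
  intro j
  induction j with
  | zero =>
    intro _ α hα hl
    have h1 : 2 * n - 0 = n + n := by omega
    rw [h1] at hα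
    exact left_level n n (le_refl _) α hα hl
  | succ j ih =>
    intro hj α hα hl
    have ih' := ih (by omega)
    obtain ⟨N, hN⟩ : ∃ N, 2 * n - (j + 1) = N := ⟨_, rfl⟩
    have hN' : 2 * n - j = N + 1 := by omega
    rw [hN] at hα
    rw [hN'] at ih'
    have ha := right_a' (n := n) (M := 2 * (n + j)) (N := N + 1) (l := n) (by omega) (by omega)
      (cR j) (hR j) (hR_one j) (hR_succ j) ih'
      (by unfold size; rw [if_neg (by omega)]; omega)
    exact right_b' (n := n) (M := 2 * (n + j) + 1) (N := N) (l := n) (by omega) (by omega)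
      (hR j) (cR (j + 1)) (cR_succ j) ha (by unfold size; rw [if_neg (by omega)]; omega) α hα hl

theorem T_eq_det (n : ℕ) : (T n : ℚ) =
    (Matrix.of (fun i j : Fin n => coeff (j.1 + 1) (TT^[n] (om ^ (i.1 + 1))))).det := by
  rw [T_eq_tau, grid_eq]
  have hs : size n (4 * n) = n := by
    unfold size
    rcases Nat.eq_zero_or_pos n with rfl | h
    · simp
    · rw [if_neg (by omega)]; omega
  have hSL : SL 1 (2 * n - n) (List.range' 1 n) := by
    refine ⟨List.pairwise_lt_range', fun a ha => ?_⟩
    rw [List.mem_range'_1] at ha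
    omega
  have h := right_level n n (le_refl _) (List.range' 1 n) hSL (by simp)
  have e1 : (List.range' 1 n).toFinset = Icc 1 (size n (4 * n)) := by
    ext x
    rw [List.mem_toFinset, List.mem_range'_1, mem_Icc, hs]
    omega
  have e2 : 2 * (n + n) = 4 * n := by ring
  rw [e1, e2] at h
  rw [h]
  unfold D
  congr 1
  ext i j
  unfold mat
  rw [Matrix.of_apply, Matrix.of_apply, List.getD_eq_getElem _ _ (by simp)]
  simp [cR, add_comm]

end Pool.BZ
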