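import Pool.Agent.helper40.BZ.Defs

set_option autoImplicit false

namespace Pool.BZ

open Finset

variable {α β : Type*} [DecidableEq α] [DecidableEq β]

open Classical in
/-- the finite set of covers of `R` -/
noncomputable def covers (tile : Finset α → Prop) (R : Finset α) : Finset (Finset (Finset α)) :=
  (R.powerset.powerset).filter (fun P => IsCover tile (R : Set α) P)

/-- number of covers -/
noncomputable def tau (tile : Finset α → Prop) (R : Finset α) : ℕ := (covers tile R).card

omit [DecidableEq α] in
lemma IsCover.subset {tile : Finset α → Prop} {R : Finset α} {P : Finset (Finset α)}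
    (h : IsCover tile (R : Set α) P) : ∀ t ∈ P, t ⊆ R := by
  intro t ht p hp
  have := (h.2.2 p).2 ⟨t, ht, hp⟩
  simpa using this

omit [DecidableEq α] in
lemma mem_covers {tile : Finset α → Prop} {R : Finset α} {P : Finset (Finset α)} :
    P ∈ covers tile R ↔ IsCover tile (R : Set α) P := by
  classical
  unfold covers
  rw [mem_filter, mem_powerset]
  constructor
  · exact fun h => h.2
  · intro h
    refine ⟨fun t ht => ?_, h⟩
    rw [mem_powerset]
    exact h.subset t ht

omit [DecidableEq α] in
lemma natCard_covers (tile : Finset α → Prop) (R : Finset α) :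
    Nat.card {P : Finset (Finset α) // IsCover tile (R : Set α) P} = tau tile R :=
  Nat.subtype_card (covers tile R) (fun _ => mem_covers)

omit [DecidableEq α] in
lemma IsCover.eq_of_mem {tile : Finset α → Prop} {R : Set α} {P : Finset (Finset α)}
    (h : IsCover tile R P) {t t' : Finset α} (ht : t ∈ P) (ht' : t' ∈ P) {p : α}
    (hp : p ∈ t) (hp' : p ∈ t') : t = t' := by
  by_contra hne
  exact (Finset.disjoint_left.1 (h.2.1 t ht t' ht' hne)) hp hp'

lemma IsCover.erase {tile : Finset α → Prop} {R : Finset α} {P : Finset (Finset α)}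
    (h : IsCover tile (R : Set α) P) {t : Finset α} (ht : t ∈ P) :
    IsCover tile ((R \ t : Finset α) : Set α) (P.erase t) := by
  refine ⟨fun s hs => h.1 s (mem_of_mem_erase hs),
    fun s hs s' hs' hne => h.2.1 s (mem_of_mem_erase hs) s' (mem_of_mem_erase hs') hne, ?_⟩
  intro p
  rw [mem_coe, mem_sdiff]
  constructor
  · rintro ⟨hp, hpt⟩
    obtain ⟨s, hs, hps⟩ := (h.2.2 p).1 (by simpa using hp)
    refine ⟨s, mem_erase.2 ⟨?_, hs⟩, hps⟩
    rintro rfl
    exact hpt hps
  · rintro ⟨s, hs, hps⟩
    rw [mem_erase] at hs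
    refine ⟨by simpa using (h.2.2 p).2 ⟨s, hs.2, hps⟩, fun hpt => hs.1 ?_⟩
    exact h.eq_of_mem hs.2 ht hps hpt

lemma IsCover.insert {tile : Finset α → Prop} {R : Finset α} {P : Finset (Finset α)}
    {t : Finset α} (h : IsCover tile ((R \ t : Finset α) : Set α) P) (ht : tile t) (htR : t ⊆ R) :
    IsCover tile (R : Set α) (insert t P) := by
  have hdis : ∀ s ∈ P, Disjoint t s := by
    intro s hs
    rw [Finset.disjoint_left]
    intro p hpt hps
    have := h.subset s hs hps
    rw [mem_sdiff] at this
    exact this.2 hpt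
  refine ⟨?_, ?_, ?_⟩
  · intro s hs
    rw [mem_insert] at hs
    rcases hs with rfl | hs
    · exact ht
    · exact h.1 s hs
  · intro s hs s' hs' hne
    rw [mem_insert] at hs hs'
    rcases hs with rfl | hs
    · rcases hs' with rfl | hs'
      · exact absurd rfl hne
      · exact hdis s' hs'
    · rcases hs' with rfl | hs'
      · exact (hdis s hs).symm
      · exact h.2.1 s hs s' hs' hne
  · intro p
    constructor
    · intro hp
      by_cases hpt : p ∈ t
      · exact ⟨t, mem_insert_self _ _, hpt⟩
      · obtain ⟨s, hs, hps⟩ := (h.2.2 p).1 (by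
          rw [mem_coe, mem_sdiff]; exact ⟨by simpa using hp, hpt⟩)
        exact ⟨s, mem_insert_of_mem hs, hps⟩
    · rintro ⟨s, hs, hps⟩
      rw [mem_insert] at hs
      rcases hs with rfl | hs
      · exact mem_coe.2 (htR hps)
      · have := h.subset s hs hps
        rw [mem_sdiff] at this
        exact mem_coe.2 this.1

/-- peeling: choose the tile containing `v` -/
theorem tau_peel (tile : Finset α → Prop) (R : Finset α) (v : α) (hv : v ∈ R)
    (O : Finset (Finset α)) (hO : ∀ t, t ∈ O ↔ tile t ∧ v ∈ t ∧ t ⊆ R) :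
    tau tile R = ∑ t ∈ O, tau tile (R \ t) := by
  classical
  have key : covers tile R = O.biUnion (fun t => (covers tile (R \ t)).image (insert t)) := by
    ext P
    rw [mem_covers, mem_biUnion]
    constructor
    · intro h
      obtain ⟨t, ht, hvt⟩ := (h.2.2 v).1 (mem_coe.2 hv)
      refine ⟨t, (hO t).2 ⟨h.1 t ht, hvt, h.subset t ht⟩, ?_⟩
      rw [mem_image]
      exact ⟨P.erase t, mem_covers.2 (h.erase ht), insert_erase ht⟩
    · rintro ⟨t, ht, hP⟩
      rw [mem_image] at hP
      obtain ⟨P', hP', rfl⟩ := hP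
      rw [hO] at ht
      exact (mem_covers.1 hP').insert ht.1 ht.2.2
  unfold tau
  rw [key, card_biUnion]
  · refine sum_congr rfl fun t ht => ?_
    rw [hO] at ht
    rw [card_image_of_injOn]
    intro P hP P' hP' he
    have hn : ∀ Q ∈ covers tile (R \ t), t ∉ Q := by
      intro Q hQ htQ
      have := (mem_covers.1 hQ).subset t htQ ht.2.1
      rw [mem_sdiff] at this
      exact this.2 ht.2.1
    have h1 := hn P hP
    have h2 := hn P' hP'
    have := congrArg (fun Q => Finset.erase Q t) he
    simpa [erase_insert h1, erase_insert h2] using this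
  · intro t ht t' ht' hne
    rw [mem_coe, hO] at ht ht'
    rw [Function.onFun, Finset.disjoint_left]
    intro Q hQ hQ'
    rw [mem_image] at hQ hQ'
    obtain ⟨P, hP, rfl⟩ := hQ
    obtain ⟨P', hP', he⟩ := hQ'
    have h1 : t' ∈ insert t P := by rw [← he]; exact mem_insert_self _ _
    rw [mem_insert] at h1
    rcases h1 with h1 | h1
    · exact hne h1.symm
    · have := (mem_covers.1 hP).subset t' h1 ht'.2.1
      rw [mem_sdiff] at this
      exact this.2 ht.2.1

omit [DecidableEq α] in
lemma tau_empty (tile : Finset α → Prop) (h : ¬ tile ∅) : tau tile ∅ = 1 := by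
  classical
  unfold tau
  have : covers tile (∅ : Finset α) = {∅} := by
    ext P
    rw [mem_covers, mem_singleton]
    constructor
    · intro hP
      rw [eq_empty_iff_forall_notMem]
      intro t ht
      have h1 := hP.subset t ht
      rw [subset_empty] at h1
      exact h (h1 ▸ hP.1 t ht)
    · rintro rfl
      refine ⟨by simp, by simp, by simp⟩
  rw [this, card_singleton]

/-- Contracting blocks. -/
theorem tau_blow (tile : Finset α → Prop) (edge : Finset β → Prop) (V : Finset α) (G : Finset β)
    (block : β → Finset α)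
    (b1 : ∀ w ∈ G, (block w).Nonempty)
    (b2 : ∀ w ∈ G, ∀ w' ∈ G, ∀ p, p ∈ block w → p ∈ block w' → w = w')
    (b3 : ∀ p, p ∈ V ↔ ∃ w ∈ G, p ∈ block w)
    (c1 : ∀ e, edge e → e ⊆ G → tile (e.biUnion block))
    (c2 : ∀ P, IsCover tile (V : Set α) P → ∀ t ∈ P, ∃ e, edge e ∧ e ⊆ G ∧ t = e.biUnion block) :
    tau tile V = tau edge G := by
  classical
  have hsub : ∀ e e' : Finset β, e ⊆ G → e' ⊆ G → e.biUnion block = e'.biUnion block → e ⊆ e' := by
    intro e e' he he' h w hw
    obtain ⟨p, hp⟩ := b1 w (he hw)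
    have h1 : p ∈ e'.biUnion block := by
      rw [← h, mem_biUnion]; exact ⟨w, hw, hp⟩
    rw [mem_biUnion] at h1
    obtain ⟨w', hw', hp'⟩ := h1
    rw [b2 w (he hw) w' (he' hw') p hp hp']
    exact hw'
  have hinj : ∀ e e' : Finset β, e ⊆ G → e' ⊆ G → e.biUnion block = e'.biUnion block → e = e' :=
    fun e e' he he' h => Subset.antisymm (hsub e e' he he' h) (hsub e' e he' he h.symm)
  unfold tau
  symm
  refine card_bij (fun P' _ => P'.image (fun e => e.biUnion block)) ?_ ?_ ?_
  · intro P' hP'
    have h := mem_covers.1 hP'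
    rw [mem_covers]
    refine ⟨?_, ?_, ?_⟩
    · intro t ht
      rw [mem_image] at ht
      obtain ⟨e, he, rfl⟩ := ht
      exact c1 e (h.1 e he) (h.subset e he)
    · intro t ht t' ht' hne
      rw [mem_image] at ht ht'
      obtain ⟨e, he, rfl⟩ := ht
      obtain ⟨e', he', rfl⟩ := ht'
      have hne' : e ≠ e' := fun hh => hne (by rw [hh])
      have hd := h.2.1 e he e' he' hne'
      rw [Finset.disjoint_left]
      intro p hp hp'
      rw [mem_biUnion] at hp hp'
      obtain ⟨w, hw, hpw⟩ := hp
      obtain ⟨w', hw', hpw'⟩ := hp'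
      have := b2 w (h.subset e he hw) w' (h.subset e' he' hw') p hpw hpw'
      subst this
      exact (Finset.disjoint_left.1 hd) hw hw'
    · intro p
      rw [mem_coe, b3]
      constructor
      · rintro ⟨w, hw, hpw⟩
        obtain ⟨e, he, hwe⟩ := (h.2.2 w).1 (mem_coe.2 hw)
        exact ⟨e.biUnion block, mem_image_of_mem _ he, mem_biUnion.2 ⟨w, hwe, hpw⟩⟩
      · rintro ⟨t, ht, hpt⟩
        rw [mem_image] at ht
        obtain ⟨e, he, rfl⟩ := ht
        rw [mem_biUnion] at hpt
        obtain ⟨w, hw, hpw⟩ := hpt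
        exact ⟨w, h.subset e he hw, hpw⟩
  · intro P hP Q hQ he
    have hP' := mem_covers.1 hP
    have hQ' := mem_covers.1 hQ
    have aux : ∀ P Q : Finset (Finset β), IsCover edge (G : Set β) P → IsCover edge (G : Set β) Q →
        P.image (fun e => e.biUnion block) = Q.image (fun e => e.biUnion block) → P ⊆ Q := by
      intro P Q hP hQ hh e he
      have h1 : e.biUnion block ∈ Q.image (fun e => e.biUnion block) := by
        rw [← hh]; exact mem_image_of_mem _ he
      rw [mem_image] at h1
      obtain ⟨e', he', h2⟩ := h1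
      rw [← hinj e' e (hQ.subset e' he') (hP.subset e he) h2]
      exact he'
    exact Subset.antisymm (aux P Q hP' hQ' he) (aux Q P hQ' hP' he.symm)
  · intro P hP
    have h := mem_covers.1 hP
    have c2' := c2 P h
    refine ⟨G.powerset.filter (fun e => edge e ∧ e.biUnion block ∈ P), ?_, ?_⟩
    · rw [mem_covers]
      refine ⟨?_, ?_, ?_⟩
      · intro e he
        rw [mem_filter] at he
        exact he.2.1
      · intro e he e' he' hne
        rw [mem_filter, mem_powerset] at he he'
        have hne' : e.biUnion block ≠ e'.biUnion block := fun hh => hne (hinj e e' he.1 he'.1 hh)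
        have hd := h.2.1 _ he.2.2 _ he'.2.2 hne'
        rw [Finset.disjoint_left]
        intro w hw hw'
        obtain ⟨p, hp⟩ := b1 w (he.1 hw)
        exact (Finset.disjoint_left.1 hd) (mem_biUnion.2 ⟨w, hw, hp⟩) (mem_biUnion.2 ⟨w, hw', hp⟩)
      · intro w
        rw [mem_coe]
        constructor
        · intro hw
          obtain ⟨p, hp⟩ := b1 w hw
          obtain ⟨t, ht, hpt⟩ := (h.2.2 p).1 (mem_coe.2 ((b3 p).2 ⟨w, hw, hp⟩))
          obtain ⟨e, he, heG, hte⟩ := c2' t ht
          refine ⟨e, ?_, ?_⟩
          · rw [mem_filter, mem_powerset]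
            exact ⟨heG, he, hte ▸ ht⟩
          · rw [hte, mem_biUnion] at hpt
            obtain ⟨w', hw', hpw'⟩ := hpt
            rw [b2 w hw w' (heG hw') p hp hpw']
            exact hw'
        · rintro ⟨e, he, hwe⟩
          rw [mem_filter, mem_powerset] at he
          exact he.1 hwe
    · ext t
      rw [mem_image]
      constructor
      · rintro ⟨e, he, rfl⟩
        rw [mem_filter] at he
        exact he.2.2
      · intro ht
        obtain ⟨e, he, heG, hte⟩ := c2' t ht
        exact ⟨e, by rw [mem_filter, mem_powerset]; exact ⟨heG, he, hte ▸ ht⟩, hte.symm⟩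

end Pool.BZ
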