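import Mathlib

/-! # Type-112 tilings of benzels (MP_f6b435_co): definitions -/

set_option autoImplicit false

namespace Pool.BZ

/-- Points of `ℤ³`, written `(i, j, k)`. -/
abbrev Pt := ℤ × ℤ × ℤ

/-- `e₁ = (1,0,0)` -/
def e₁ : Pt := (1, 0, 0)
/-- `e₂ = (0,1,0)` -/
def e₂ : Pt := (0, 1, 0)
/-- `e₃ = (0,0,1)` -/
def e₃ : Pt := (0, 0, 1)

/-- The lattice plane `L = {(i,j,k) : i+j+k=1}`. -/
def L : Set Pt := {p | p.1 + p.2.1 + p.2.2 = 1}

/-- The `(a,b)`-benzel: points `(i,j,k)` of `L` with `-(a-1) ≤ j-i, k-j, i-k ≤ b-1`. -/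
def benzel (a b : ℤ) : Set Pt :=
  {p | p ∈ L ∧ (-(a - 1) ≤ p.2.1 - p.1 ∧ p.2.1 - p.1 ≤ b - 1) ∧
    (-(a - 1) ≤ p.2.2 - p.2.1 ∧ p.2.2 - p.2.1 ≤ b - 1) ∧
    (-(a - 1) ≤ p.1 - p.2.2 ∧ p.1 - p.2.2 ≤ b - 1)}

/-- The right stone at `v`: `{v, v - e₁ + e₂, v - e₁ + e₃}`. -/
def rightStone (v : Pt) : Finset Pt := {v, v - e₁ + e₂, v - e₁ + e₃}

/-- The left stone at `v`: `{v, v + e₁ - e₂, v + e₁ - e₃}`. -/
def leftStone (v : Pt) : Finset Pt := {v, v + e₁ - e₂, v + e₁ - e₃}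

/-- The bone with centre `v` in direction `d`: `{v - d, v, v + d}`. -/
def bone (d v : Pt) : Finset Pt := {v - d, v, v + d}

/-- The tiles allowed in a type-112 tiling: right stones, left stones, and the bones in the two
directions `e₁ - e₂` and `e₂ - e₃` (with `v ∈ L`). -/
def IsTile (t : Finset Pt) : Prop :=
  ∃ v ∈ L, t = rightStone v ∨ t = leftStone v ∨ t = bone (e₁ - e₂) v ∨ t = bone (e₂ - e₃) v

/-- `P` is a partition of the set `R` into finite sets satisfying `tile`. -/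
def IsCover {α : Type*} (tile : Finset α → Prop) (R : Set α) (P : Finset (Finset α)) : Prop :=
  (∀ t ∈ P, tile t) ∧ (∀ t ∈ P, ∀ t' ∈ P, t ≠ t' → Disjoint t t') ∧
    ∀ p, p ∈ R ↔ ∃ t ∈ P, p ∈ t

/-- `T n` is the number of type-112 tilings of the `(3n+1, 3n+1)`-benzel. -/
noncomputable def T (n : ℕ) : ℕ :=
  Nat.card {P : Finset (Finset Pt) // IsCover IsTile (benzel (3 * n + 1) (3 * n + 1)) P}

end Pool.BZ
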