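import Pool.Agent.helper40.BZ.SerDefs

/-! # The determinant argument -/

set_option autoImplicit false

namespace Pool.BZ

open PowerSeries Matrix

/-- `TT` as a linear map -/
noncomputable def TTl : PowerSeries ℚ →ₗ[ℚ] PowerSeries ℚ where
  toFun := TT
  map_add' f g := by
    ext m
    unfold TT
    rw [coeff_mk, map_add, coeff_mk, coeff_mk]
    split_ifs
    · rw [add_zero]
    · rw [mul_add, map_add]
  map_smul' c f := by
    ext m
    unfold TT
    simp only [RingHom.id_apply]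
    rw [coeff_mk, coeff_smul, coeff_mk]
    split_ifs
    · simp
    · rw [mul_smul_comm, coeff_smul]

lemma TTl_pow (n : ℕ) (f : PowerSeries ℚ) : (TTl ^ n) f = TT^[n] f := by
  rw [Module.End.pow_apply]
  rfl

lemma geo_one_sub : (1 - X : PowerSeries ℚ) * geo = 1 := by
  rw [mul_comm]
  exact PowerSeries.mk_one_mul_one_sub_eq_one ℚ

lemma constCoeff_geo : constantCoeff geo = (1 : ℚ) := by
  rw [← coeff_zero_eq_constantCoeff_apply]
  simp [geo]

lemma TT_X_pow (m : ℕ) (g : PowerSeries ℚ) :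
    TT (X ^ (m + 2) * g) = X ^ (m + 1) * ((1 + X) * geo * g) := by
  ext k
  unfold TT
  rw [coeff_mk]
  have h : (1 + X) * geo * (X ^ (m + 2) * g) = X * (X ^ (m + 1) * ((1 + X) * geo * g)) := by ring
  rw [h, coeff_succ_X_mul]
  split_ifs with hk
  · subst hk
    rw [pow_succ', mul_assoc, coeff_zero_X_mul]
  · rfl

lemma TT_iter_X_pow (n m : ℕ) (g : PowerSeries ℚ) :
    TT^[n] (X ^ (n + m + 1) * g) = X ^ (m + 1) * (((1 + X) * geo) ^ n * g) := by
  induction n generalizing g with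
  | zero => simp
  | succ n ih =>
    rw [Function.iterate_succ_apply]
    have h : n + 1 + m + 1 = (n + m) + 2 := by omega
    rw [h, TT_X_pow, ih]
    ring

section omb

variable (omb : PowerSeries ℚ) (hb : omb * (1 + X) = -X * (1 - X))

include hb

lemma omb_eq : omb = X * (-(1 - X) * (1 + X)⁻¹) := by
  have h : (1 + X : PowerSeries ℚ) * (1 + X)⁻¹ = 1 := by
    apply PowerSeries.mul_inv_cancel
    simp
  calc omb = omb * ((1 + X) * (1 + X)⁻¹) := by rw [h, mul_one]
    _ = omb * (1 + X) * (1 + X)⁻¹ := by ring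
    _ = _ := by rw [hb]; ring

lemma TT_omb_pow (k : ℕ) : TT (omb ^ (k + 2)) = - omb ^ (k + 1) := by
  have h : (1 + X) * geo * omb ^ (k + 2) = X * (- omb ^ (k + 1)) := by
    calc (1 + X) * geo * omb ^ (k + 2) = geo * (omb * (1 + X)) * omb ^ (k + 1) := by ring
      _ = ((1 - X) * geo) * (X * (- omb ^ (k + 1))) := by rw [hb]; ring
      _ = _ := by rw [geo_one_sub, one_mul]
  ext m
  unfold TT
  rw [coeff_mk, h, coeff_succ_X_mul]
  split_ifs with hm
  · subst hm
    rw [omb_eq omb hb, mul_pow, pow_succ', mul_assoc, map_neg, coeff_zero_X_mul, neg_zero]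
  · rfl

lemma TT_omb : TT omb = 0 := by
  have h : (1 + X) * geo * omb = X * (-1) := by
    calc (1 + X) * geo * omb = geo * (omb * (1 + X)) := by ring
      _ = ((1 - X) * geo) * (X * (-1)) := by rw [hb]; ring
      _ = _ := by rw [geo_one_sub, one_mul]
  ext m
  unfold TT
  rw [coeff_mk, h, coeff_succ_X_mul]
  split_ifs with hm
  · simp
  · rw [map_neg, coeff_one, if_neg hm]; simp

omit hb in
lemma TT_iter_zero (n : ℕ) : TT^[n] 0 = 0 := by
  rw [← TTl_pow]; exact map_zero _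

lemma TT_iter_omb (k : ℕ) : TT^[k + 1] (omb ^ (k + 1)) = 0 := by
  induction k with
  | zero => simpa using TT_omb omb hb
  | succ k ih =>
    rw [Function.iterate_succ_apply, TT_omb_pow omb hb, ← TTl_pow, map_neg, TTl_pow, ih, neg_zero]

lemma TT_iter_omb' {n k : ℕ} (h : k < n) : TT^[n] (omb ^ (k + 1)) = 0 := by
  obtain ⟨d, rfl⟩ : ∃ d, n = d + (k + 1) := ⟨n - (k + 1), by omega⟩
  rw [Function.iterate_add_apply, TT_iter_omb omb hb, TT_iter_zero]

end omb

/-- the functionals -/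
noncomputable def Lf (n : ℕ) : Fin n ⊕ Fin n → (PowerSeries ℚ →ₗ[ℚ] ℚ)
  | Sum.inl j => (coeff (R := ℚ) (j.1 + 1)) ∘ₗ (TTl ^ n)
  | Sum.inr j => coeff (R := ℚ) (j.1 + 1)

/-- position of the functionals -/
def cpos (n : ℕ) : Fin n ⊕ Fin n → ℕ
  | Sum.inl j => n + j.1
  | Sum.inr j => j.1

/-- order of the rows -/
def rpos (n : ℕ) : Fin n ⊕ Fin n → ℕ
  | Sum.inl k => 2 * k.1 + 1
  | Sum.inr k => 2 * k.1

lemma Lf_lt {n m : ℕ} (s : Fin n ⊕ Fin n) (g : PowerSeries ℚ) (h : cpos n s < m) :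
    Lf n s (X ^ (m + 1) * g) = 0 := by
  rcases s with j | j
  · have h' : n + j.1 < m := h
    obtain ⟨d, rfl⟩ : ∃ d, m = n + d := ⟨m - n, by omega⟩
    show coeff (j.1 + 1) ((TTl ^ n) (X ^ (n + d + 1) * g)) = 0
    rw [TTl_pow, TT_iter_X_pow, coeff_X_pow_mul', if_neg (by omega)]
  · show coeff (j.1 + 1) (X ^ (m + 1) * g) = 0
    have h' : j.1 < m := h
    rw [coeff_X_pow_mul', if_neg (by omega)]

lemma Lf_eq {n m : ℕ} (s : Fin n ⊕ Fin n) (g : PowerSeries ℚ) (h : cpos n s = m) :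
    Lf n s (X ^ (m + 1) * g) = constantCoeff g := by
  rcases s with j | j
  · have h' : n + j.1 = m := h
    subst h'
    show coeff (j.1 + 1) ((TTl ^ n) (X ^ (n + j.1 + 1) * g)) = _
    rw [TTl_pow, TT_iter_X_pow, coeff_X_pow_mul', if_pos (by omega)]
    simp [constCoeff_geo]
  · show coeff (j.1 + 1) (X ^ (m + 1) * g) = _
    have h' : j.1 = m := h
    subst h'
    rw [coeff_X_pow_mul', if_pos (by omega)]
    simp

/-- column equivalence -/
noncomputable def Ecol (n : ℕ) : Fin n ⊕ Fin n ≃ Fin (2 * n) :=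
  Equiv.ofBijective (fun s => ⟨cpos n s, by rcases s with j | j <;> simp only [cpos] <;> omega⟩) (by
    rw [Fintype.bijective_iff_injective_and_card]
    refine ⟨?_, by simp; ring⟩
    rintro (j | j) (j' | j') h <;> simp only [cpos, Fin.mk.injEq] at h
    · rw [Fin.ext (show j.1 = j'.1 by omega)]
    · omega
    · omega
    · rw [Fin.ext h])

/-- row equivalence -/
noncomputable def Erow (n : ℕ) : Fin n ⊕ Fin n ≃ Fin (2 * n) :=
  Equiv.ofBijective (fun s => ⟨rpos n s, by rcases s with j | j <;> simp only [rpos] <;> omega⟩) (by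
    rw [Fintype.bijective_iff_injective_and_card]
    refine ⟨?_, by simp; ring⟩
    rintro (j | j) (j' | j') h <;> simp only [rpos, Fin.mk.injEq] at h
    · rw [Fin.ext (show j.1 = j'.1 by omega)]
    · omega
    · omega
    · rw [Fin.ext (show j.1 = j'.1 by omega)])

lemma Ecol_val (n : ℕ) (s : Fin n ⊕ Fin n) : (Ecol n s).1 = cpos n s := rfl

lemma Erow_val (n : ℕ) (s : Fin n ⊕ Fin n) : (Erow n s).1 = rpos n s := rfl

/-- determinant of the matrix of functions with prescribed orders -/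
lemma det_triangular {n : ℕ} (P : Matrix (Fin n ⊕ Fin n) (Fin n ⊕ Fin n) ℚ) (d : ℕ → ℚ)
    (h0 : ∀ r s, cpos n s < rpos n r → P r s = 0)
    (h1 : ∀ r s, cpos n s = rpos n r → P r s = d (rpos n r)) :
    |P.det| = |∏ m ∈ Finset.range (2 * n), d m| := by
  rw [← Matrix.abs_det_submatrix_equiv_equiv (Erow n).symm (Ecol n).symm]
  have ht : (P.submatrix (Erow n).symm (Ecol n).symm).BlockTriangular id := by
    intro r s hrs
    obtain ⟨x, rfl⟩ := (Erow n).surjective r
    obtain ⟨y, rfl⟩ := (Ecol n).surjective s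
    rw [Matrix.submatrix_apply, Equiv.symm_apply_apply, Equiv.symm_apply_apply]
    apply h0
    have : (Ecol n y).1 < (Erow n x).1 := hrs
    rwa [Ecol_val, Erow_val] at this
  rw [Matrix.det_of_isUpperTriangular ht, ← Fin.prod_univ_eq_prod_range]
  congr 1
  refine Finset.prod_congr rfl fun r _ => ?_
  obtain ⟨x, hx⟩ := (Erow n).surjective r
  obtain ⟨y, hy⟩ := (Ecol n).surjective r
  rw [Matrix.submatrix_apply]
  have e1 : (Erow n).symm r = x := by rw [← hx, Equiv.symm_apply_apply]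
  have e2 : (Ecol n).symm r = y := by rw [← hy, Equiv.symm_apply_apply]
  rw [e1, e2, h1, ← Erow_val, hx]
  rw [← Ecol_val, ← Erow_val, hx, hy]

/-- lower triangular coefficient matrix -/
lemma det_coeffs {n : ℕ} (Q : ℕ → Polynomial ℚ) (a : ℕ → ℚ)
    (hdeg : ∀ k, (Q (k + 1)).natDegree ≤ k + 1) (hlead : ∀ k, (Q (k + 1)).coeff (k + 1) = a (k + 1)) :
    (Matrix.of (fun k i : Fin n => (Q (k.1 + 1)).coeff (i.1 + 1))).det =
      ∏ k ∈ Finset.range n, a (k + 1) := by
  rw [Matrix.det_of_isLowerTriangular]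
  · rw [← Fin.prod_univ_eq_prod_range]
    refine Finset.prod_congr rfl fun k _ => ?_
    rw [Matrix.of_apply, hlead]
  · intro k i hki
    rw [Matrix.of_apply]
    apply Polynomial.coeff_eq_zero_of_natDegree_lt
    have h1 := hdeg k.1
    have h2 : k.1 < i.1 := hki
    omega

lemma aeval_expand {n : ℕ} (Q : Polynomial ℚ) (k : ℕ) (hk : k < n) (hdeg : Q.natDegree ≤ k + 1)
    (h0 : Q.coeff 0 = 0) (w : PowerSeries ℚ) :
    Polynomial.aeval w Q = ∑ i : Fin n, Q.coeff (i.1 + 1) • w ^ (i.1 + 1) := by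
  rw [Polynomial.aeval_eq_sum_range' (n := n + 1) (by omega), Finset.sum_range_succ', h0, zero_smul,
    add_zero, Fin.sum_univ_eq_sum_range (fun i => Q.coeff (i + 1) • w ^ (i + 1))]

/-- The determinant argument. -/
theorem det_of_inv (omb : PowerSeries ℚ) (hb : omb * (1 + X) = -X * (1 - X))
    (Qp Qm : ℕ → Polynomial ℚ) (ap am : ℕ → ℚ)
    (dp : ∀ k, (Qp (k + 1)).natDegree ≤ k + 1) (zp : ∀ k, (Qp (k + 1)).coeff 0 = 0)
    (lp : ∀ k, (Qp (k + 1)).coeff (k + 1) = ap (k + 1))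
    (dm : ∀ k, (Qm (k + 1)).natDegree ≤ k + 1) (zm : ∀ k, (Qm (k + 1)).coeff 0 = 0)
    (lm : ∀ k, (Qm (k + 1)).coeff (k + 1) = am (k + 1))
    (hp : ∀ k, ∃ f : PowerSeries ℚ, constantCoeff f = 4 ^ (2 * k + 2) ∧
      Polynomial.aeval om (Qp (k + 1)) + Polynomial.aeval omb (Qp (k + 1)) = X ^ (2 * k + 2) * f)
    (hm : ∀ k, ∃ f : PowerSeries ℚ, constantCoeff f = 4 ^ (2 * k + 1) ∧
      Polynomial.aeval om (Qm (k + 1)) - Polynomial.aeval omb (Qm (k + 1)) = X ^ (2 * k + 1) * f)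
    (n : ℕ) :
    |(Matrix.of (fun i j : Fin n => coeff (j.1 + 1) (TT^[n] (om ^ (i.1 + 1))))).det| *
      |∏ k ∈ Finset.range n, (2 * ap (k + 1) * am (k + 1))| =
      ∏ k ∈ Finset.range n, (4 : ℚ) ^ (4 * k + 3) := by
  -- the big matrix
  set Ψ : Matrix (Fin n) (Fin n) ℚ :=
    Matrix.of (fun i j : Fin n => coeff (j.1 + 1) (TT^[n] (om ^ (i.1 + 1)))) with hΨ
  set Φ : Matrix (Fin n) (Fin n) ℚ :=
    Matrix.of (fun i j : Fin n => coeff (j.1 + 1) (om ^ (i.1 + 1))) with hΦ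
  set Φ' : Matrix (Fin n) (Fin n) ℚ :=
    Matrix.of (fun i j : Fin n => coeff (j.1 + 1) (omb ^ (i.1 + 1))) with hΦ'
  set Ap : Matrix (Fin n) (Fin n) ℚ :=
    Matrix.of (fun k i : Fin n => (Qp (k.1 + 1)).coeff (i.1 + 1)) with hAp
  set Am : Matrix (Fin n) (Fin n) ℚ :=
    Matrix.of (fun k i : Fin n => (Qm (k.1 + 1)).coeff (i.1 + 1)) with hAm
  set M := Matrix.fromBlocks Ψ Φ 0 Φ' with hM
  set B := Matrix.fromBlocks Ap Ap Am (-Am) with hB
  have detM : M.det = Ψ.det * Φ'.det := Matrix.det_fromBlocks_zero₂₁ _ _ _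
  have hcomb := omb_eq omb hb
  have detΦ' : |Φ'.det| = 1 := by
    rw [Matrix.det_of_isUpperTriangular]
    · rw [Finset.abs_prod]
      apply Finset.prod_eq_one
      intro i _
      rw [hΦ', Matrix.of_apply, hcomb, mul_pow, coeff_X_pow_mul', if_pos (le_refl _)]
      simp
    · intro i j hij
      have h2 : j.1 < i.1 := hij
      rw [hΦ', Matrix.of_apply, hcomb, mul_pow, coeff_X_pow_mul', if_neg (by omega)]
  have detB : |B.det| = |∏ k ∈ Finset.range n, (2 * ap (k + 1) * am (k + 1))| := by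
    have h1 : B * Matrix.fromBlocks 1 (-1) 0 1 = Matrix.fromBlocks Ap 0 Am (-Am - Am) := by
      rw [hB, Matrix.fromBlocks_multiply]
      congr 1 <;> simp [sub_eq_add_neg]
    have h2 : (Matrix.fromBlocks 1 (-1) 0 1 : Matrix (Fin n ⊕ Fin n) (Fin n ⊕ Fin n) ℚ).det = 1 := by
      rw [Matrix.det_fromBlocks_zero₂₁]; simp
    have h3 := congrArg Matrix.det h1
    rw [Matrix.det_mul, h2, mul_one, Matrix.det_fromBlocks_zero₁₂] at h3
    have h4 : -Am - Am = (-2 : ℚ) • Am := by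
      ext i j
      simp only [Matrix.sub_apply, Matrix.neg_apply, Matrix.smul_apply, smul_eq_mul]
      ring
    rw [h3, h4, Matrix.det_smul, hAp, hAm, det_coeffs Qp ap dp lp, det_coeffs Qm am dm lm]
    rw [Finset.prod_mul_distrib, Finset.prod_mul_distrib]
    simp only [Finset.prod_const, Finset.card_range, Fintype.card_fin, abs_mul, abs_pow, abs_neg]
    ring
  have hent : ∀ (s : Fin n ⊕ Fin n) (i : Fin n), M (Sum.inl i) s = Lf n s (om ^ (i.1 + 1)) ∧
      M (Sum.inr i) s = Lf n s (omb ^ (i.1 + 1)) := by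
    intro s i
    rcases s with j | j
    · constructor
      · show coeff (j.1 + 1) (TT^[n] (om ^ (i.1 + 1))) = _
        rw [← TTl_pow]; rfl
      · show (0 : ℚ) = coeff (j.1 + 1) ((TTl ^ n) (omb ^ (i.1 + 1)))
        rw [TTl_pow, TT_iter_omb' omb hb i.2, map_zero]
    · exact ⟨rfl, rfl⟩
  have hrowp : ∀ (s : Fin n ⊕ Fin n) (k : Fin n), (B * M) (Sum.inl k) s =
      Lf n s (Polynomial.aeval om (Qp (k.1 + 1)) + Polynomial.aeval omb (Qp (k.1 + 1))) := by
    intro s k
    rw [Matrix.mul_apply, Fintype.sum_sum_type,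
      aeval_expand _ k.1 k.2 (dp k.1) (zp k.1) om, aeval_expand _ k.1 k.2 (dp k.1) (zp k.1) omb,
      map_add, map_sum, map_sum]
    congr 1
    · refine Finset.sum_congr rfl fun i _ => ?_
      rw [(hent s i).1, map_smul]; rfl
    · refine Finset.sum_congr rfl fun i _ => ?_
      rw [(hent s i).2, map_smul]; rfl
  have hrowm : ∀ (s : Fin n ⊕ Fin n) (k : Fin n), (B * M) (Sum.inr k) s =
      Lf n s (Polynomial.aeval om (Qm (k.1 + 1)) - Polynomial.aeval omb (Qm (k.1 + 1))) := by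
    intro s k
    rw [Matrix.mul_apply, Fintype.sum_sum_type,
      aeval_expand _ k.1 k.2 (dm k.1) (zm k.1) om, aeval_expand _ k.1 k.2 (dm k.1) (zm k.1) omb,
      map_sub, map_sum, map_sum, sub_eq_add_neg, ← Finset.sum_neg_distrib]
    congr 1
    · refine Finset.sum_congr rfl fun i _ => ?_
      rw [(hent s i).1, map_smul]; rfl
    · refine Finset.sum_congr rfl fun i _ => ?_
      rw [(hent s i).2, map_smul, smul_eq_mul, ← neg_mul]; rfl
  have hdet : |(B * M).det| = |∏ m ∈ Finset.range (2 * n), (4 : ℚ) ^ (m + 1)| := by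
    apply det_triangular (B * M) (fun m => (4 : ℚ) ^ (m + 1))
    · rintro (k | k) s h
      · obtain ⟨f, hf, hf'⟩ := hp k.1
        rw [hrowp, hf']
        exact Lf_lt s f h
      · obtain ⟨f, hf, hf'⟩ := hm k.1
        rw [hrowm, hf']
        exact Lf_lt s f h
    · rintro (k | k) s h
      · obtain ⟨f, hf, hf'⟩ := hp k.1
        rw [hrowp, hf']
        rw [Lf_eq (m := 2 * k.1 + 1) s f h, hf]
        rfl
      · obtain ⟨f, hf, hf'⟩ := hm k.1
        rw [hrowm, hf']
        rw [Lf_eq (m := 2 * k.1) s f h, hf]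
        rfl
  have hprod : ∏ m ∈ Finset.range (2 * n), (4 : ℚ) ^ (m + 1) =
      ∏ k ∈ Finset.range n, (4 : ℚ) ^ (4 * k + 3) := by
    clear_value Ψ Φ Φ' Ap Am M B
    clear * -
    induction n with
    | zero => simp
    | succ n ih =>
      have : 2 * (n + 1) = 2 * n + 1 + 1 := by ring
      rw [this, Finset.prod_range_succ, Finset.prod_range_succ, Finset.prod_range_succ, ih]
      ring
  rw [Matrix.det_mul, abs_mul, detM, abs_mul, detΦ', detB, hprod, mul_one] at hdet
  rw [mul_comm, hdet]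
  apply abs_of_nonneg
  positivity

end Pool.BZ
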