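import Pool.Agent.helper40.BZ.Cover

/-! # From type-112 tilings of the benzel to perfect matchings of a strip graph -/

set_option autoImplicit false

namespace Pool.BZ

open Finset

/-- size of column `m` -/
def size (n m : ℕ) : ℕ := if m < 2 * n then n + (m + 1) / 2 else 3 * n - m / 2

/-- the strip graph: vertices `(m, x)` -/
def grid (n : ℕ) : Finset (ℕ × ℕ) :=
  ((Finset.range (4 * n + 1)) ×ˢ (Finset.Icc 1 (3 * n))).filter (fun w => w.2 ≤ size n w.1)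

lemma mem_grid {n : ℕ} {w : ℕ × ℕ} :
    w ∈ grid n ↔ w.1 ≤ 4 * n ∧ 1 ≤ w.2 ∧ w.2 ≤ size n w.1 := by
  unfold grid
  rw [mem_filter, mem_product, mem_range, mem_Icc]
  constructor
  · rintro ⟨⟨h1, h2, h3⟩, h4⟩
    exact ⟨by omega, h2, h4⟩
  · rintro ⟨h1, h2, h3⟩
    refine ⟨⟨by omega, h2, ?_⟩, h3⟩
    unfold size at h3
    split_ifs at h3 <;> omega

/-- adjacency of `(m, x)` and `(m+1, x')` -/
def adj (n m x x' : ℕ) : Prop :=
  (m < 2 * n ∧ (x' = x ∨ x' = x + 1)) ∨ (2 * n ≤ m ∧ (x = x' ∨ x = x' + 1))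

/-- edges of the strip graph -/
def Edge (n : ℕ) (e : Finset (ℕ × ℕ)) : Prop :=
  ∃ m x x', adj n m x x' ∧ e = {(m, x), (m + 1, x')}

/-- the cell with coordinates `(2(q+n), y)` -/
def cellPt (n q y : ℤ) : Pt :=
  if q ≤ 0 then (n - q - y + 1, -2 * n - q + 2 * y - 1, n + 2 * q - y + 1)
  else (n - 2 * q - y + 1, q - 2 * n + 2 * y - 1, n + q - y + 1)

/-- first cell of the domino `(2(q+n)+1, x)` -/
def dom1 (n q x : ℤ) : Pt :=
  if q < 0 then (n - q - x + 1, -2 * n - q + 2 * x - 2, n + 2 * q - x + 2)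
  else (n - 2 * q - x, q - 2 * n + 2 * x, n + q - x + 1)

/-- second cell of the domino `(2(q+n)+1, x)` -/
def dom2 (n q x : ℤ) : Pt :=
  if q < 0 then (n - q - x, -2 * n - q + 2 * x - 1, n + 2 * q - x + 2)
  else (n - 2 * q - x, q - 2 * n + 2 * x - 1, n + q - x + 2)

/-- the block of cells represented by a vertex of the strip graph -/
def block (n : ℕ) (w : ℕ × ℕ) : Finset Pt :=
  if w.1 % 2 = 0 then {cellPt n ((w.1 / 2 : ℕ) - n : ℤ) w.2}
  else {dom1 n ((w.1 / 2 : ℕ) - n : ℤ) w.2, dom2 n ((w.1 / 2 : ℕ) - n : ℤ) w.2}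

lemma mem_block {n m x : ℕ} {p : Pt} : p ∈ block n (m, x) ↔
    (m % 2 = 0 ∧ p = cellPt n ((m / 2 : ℕ) - n : ℤ) x) ∨
    (m % 2 = 1 ∧ (p = dom1 n ((m / 2 : ℕ) - n : ℤ) x ∨ p = dom2 n ((m / 2 : ℕ) - n : ℤ) x)) := by
  unfold block
  rcases Nat.mod_two_eq_zero_or_one m with h | h
  · simp [h]
  · simp [h]

lemma cellPt_iff {n q y i j k : ℤ} : (i, j, k) = cellPt n q y ↔
    (q ≤ 0 ∧ i = n - q - y + 1 ∧ j = -2 * n - q + 2 * y - 1 ∧ k = n + 2 * q - y + 1) ∨
    (0 < q ∧ i = n - 2 * q - y + 1 ∧ j = q - 2 * n + 2 * y - 1 ∧ k = n + q - y + 1) := by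
  unfold cellPt
  split_ifs with h
  · simp only [Prod.mk.injEq]; omega
  · simp only [Prod.mk.injEq]; omega

lemma dom1_iff {n q x i j k : ℤ} : (i, j, k) = dom1 n q x ↔
    (q < 0 ∧ i = n - q - x + 1 ∧ j = -2 * n - q + 2 * x - 2 ∧ k = n + 2 * q - x + 2) ∨
    (0 ≤ q ∧ i = n - 2 * q - x ∧ j = q - 2 * n + 2 * x ∧ k = n + q - x + 1) := by
  unfold dom1
  split_ifs with h
  · simp only [Prod.mk.injEq]; omega
  · simp only [Prod.mk.injEq]; omega

lemma dom2_iff {n q x i j k : ℤ} : (i, j, k) = dom2 n q x ↔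
    (q < 0 ∧ i = n - q - x ∧ j = -2 * n - q + 2 * x - 1 ∧ k = n + 2 * q - x + 2) ∨
    (0 ≤ q ∧ i = n - 2 * q - x ∧ j = q - 2 * n + 2 * x - 1 ∧ k = n + q - x + 2) := by
  unfold dom2
  split_ifs with h
  · simp only [Prod.mk.injEq]; omega
  · simp only [Prod.mk.injEq]; omega

lemma mem_benzel {n : ℕ} {i j k : ℤ} : (i, j, k) ∈ benzel (3 * n + 1) (3 * n + 1) ↔
    i + j + k = 1 ∧ (-(3 * n : ℤ) ≤ j - i ∧ j - i ≤ 3 * n) ∧ (-(3 * n : ℤ) ≤ k - j ∧ k - j ≤ 3 * n) ∧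
      (-(3 * n : ℤ) ≤ i - k ∧ i - k ≤ 3 * n) := by
  unfold benzel L
  simp only [Set.mem_ofPred_eq]
  constructor
  · rintro ⟨h1, h2, h3, h4⟩
    omega
  · rintro ⟨h1, h2, h3, h4⟩
    omega

lemma mem_benzel_iff {n : ℕ} {p : Pt} :
    p ∈ benzel (3 * n + 1) (3 * n + 1) ↔ ∃ w ∈ grid n, p ∈ block n w := by
  obtain ⟨i, j, k⟩ := p
  rw [mem_benzel]
  constructor
  · rintro ⟨h1, h2, h3, h4⟩
    obtain ⟨q, hq⟩ : ∃ q : ℤ, q = (k - i) / 3 := ⟨_, rfl⟩
    obtain ⟨l, hl⟩ : ∃ l : ℕ, (l : ℤ) = q + n := ⟨(q + n).toNat, Int.toNat_of_nonneg (by omega)⟩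
    have h5 : k - i = 3 * q ∨ k - i = 3 * q + 1 ∨ k - i = 3 * q + 2 := by omega
    rcases h5 with h5 | h5 | h5
    · by_cases hq0 : q ≤ 0
      · obtain ⟨y, hy⟩ : ∃ y : ℕ, (y : ℤ) = n + 2 * q + 1 - k :=
          ⟨(n + 2 * q + 1 - k).toNat, Int.toNat_of_nonneg (by omega)⟩
        refine ⟨(2 * l, y), ?_, ?_⟩
        · rw [mem_grid]; unfold size
          simp only
          split_ifs <;> omega
        · rw [mem_block, cellPt_iff]
          left; omega
      · obtain ⟨y, hy⟩ : ∃ y : ℕ, (y : ℤ) = n + q + 1 - k :=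
          ⟨(n + q + 1 - k).toNat, Int.toNat_of_nonneg (by omega)⟩
        refine ⟨(2 * l, y), ?_, ?_⟩
        · rw [mem_grid]; unfold size
          simp only
          split_ifs <;> omega
        · rw [mem_block, cellPt_iff]
          left; omega
    · by_cases hq0 : q < 0
      · obtain ⟨x, hx⟩ : ∃ x : ℕ, (x : ℤ) = n + 2 * q + 2 - k :=
          ⟨(n + 2 * q + 2 - k).toNat, Int.toNat_of_nonneg (by omega)⟩
        refine ⟨(2 * l + 1, x), ?_, ?_⟩
        · rw [mem_grid]; unfold size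
          simp only
          split_ifs <;> omega
        · rw [mem_block, dom1_iff]
          right; omega
      · obtain ⟨x, hx⟩ : ∃ x : ℕ, (x : ℤ) = n + q + 1 - k :=
          ⟨(n + q + 1 - k).toNat, Int.toNat_of_nonneg (by omega)⟩
        refine ⟨(2 * l + 1, x), ?_, ?_⟩
        · rw [mem_grid]; unfold size
          simp only
          split_ifs <;> omega
        · rw [mem_block, dom1_iff]
          right; omega
    · by_cases hq0 : q < 0
      · obtain ⟨x, hx⟩ : ∃ x : ℕ, (x : ℤ) = n + 2 * q + 2 - k :=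
          ⟨(n + 2 * q + 2 - k).toNat, Int.toNat_of_nonneg (by omega)⟩
        refine ⟨(2 * l + 1, x), ?_, ?_⟩
        · rw [mem_grid]; unfold size
          simp only
          split_ifs <;> omega
        · rw [mem_block, dom2_iff]
          right; omega
      · obtain ⟨x, hx⟩ : ∃ x : ℕ, (x : ℤ) = n + q + 2 - k :=
          ⟨(n + q + 2 - k).toNat, Int.toNat_of_nonneg (by omega)⟩
        refine ⟨(2 * l + 1, x), ?_, ?_⟩
        · rw [mem_grid]; unfold size
          simp only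
          split_ifs <;> omega
        · rw [mem_block, dom2_iff]
          right; omega
  · rintro ⟨⟨m, x⟩, hw, hp⟩
    rw [mem_grid] at hw
    unfold size at hw
    simp only at hw
    rw [mem_block, cellPt_iff, dom1_iff, dom2_iff] at hp
    split_ifs at hw <;> omega

lemma block_inj {n : ℕ} {w w' : ℕ × ℕ} {p : Pt} (h : p ∈ block n w) (h' : p ∈ block n w') :
    w = w' := by
  obtain ⟨m, x⟩ := w
  obtain ⟨m', x'⟩ := w'
  obtain ⟨i, j, k⟩ := p
  rw [mem_block, cellPt_iff, dom1_iff, dom2_iff] at h h'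
  have : m = m' := by omega
  subst this
  have : x = x' := by omega
  rw [this]

/-- ribbon tile starting at `p` -/
def ribbon (p a b : Pt) : Finset Pt := {p, p + a, p + a + b}

/-- the two allowed steps -/
def IsStep (a : Pt) : Prop := a = (-1, 1, 0) ∨ a = (0, -1, 1)

lemma isTile_iff (t : Finset Pt) :
    IsTile t ↔ ∃ p ∈ L, ∃ a b, IsStep a ∧ IsStep b ∧ t = ribbon p a b := by
  constructor
  · rintro ⟨⟨i, j, k⟩, hv, rfl | rfl | rfl | rfl⟩
    · refine ⟨(i, j, k), hv, (-1, 1, 0), (0, -1, 1), Or.inl rfl, Or.inr rfl, ?_⟩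
      ext ⟨a, b, c⟩
      simp only [rightStone, ribbon, e₁, e₂, e₃, mem_insert, mem_singleton, Prod.mk_sub_mk,
        Prod.mk_add_mk, Prod.mk.injEq]
      omega
    · refine ⟨(i + 1, j, k - 1), ?_, (0, -1, 1), (-1, 1, 0), Or.inr rfl, Or.inl rfl, ?_⟩
      · simp only [L, Set.mem_ofPred_eq] at hv ⊢; omega
      ext ⟨a, b, c⟩
      simp only [leftStone, ribbon, e₁, e₂, e₃, mem_insert, mem_singleton, Prod.mk_sub_mk,
        Prod.mk_add_mk, Prod.mk.injEq]
      omega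
    · refine ⟨(i + 1, j - 1, k), ?_, (-1, 1, 0), (-1, 1, 0), Or.inl rfl, Or.inl rfl, ?_⟩
      · simp only [L, Set.mem_ofPred_eq] at hv ⊢; omega
      ext ⟨a, b, c⟩
      simp only [bone, ribbon, e₁, e₂, mem_insert, mem_singleton, Prod.mk_sub_mk,
        Prod.mk_add_mk, Prod.mk.injEq]
      omega
    · refine ⟨(i, j + 1, k - 1), ?_, (0, -1, 1), (0, -1, 1), Or.inr rfl, Or.inr rfl, ?_⟩
      · simp only [L, Set.mem_ofPred_eq] at hv ⊢; omega
      ext ⟨a, b, c⟩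
      simp only [bone, ribbon, e₂, e₃, mem_insert, mem_singleton, Prod.mk_sub_mk,
        Prod.mk_add_mk, Prod.mk.injEq]
      omega
  · rintro ⟨⟨i, j, k⟩, hv, a, b, rfl | rfl, rfl | rfl, rfl⟩
    · refine ⟨(i - 1, j + 1, k), ?_, Or.inr (Or.inr (Or.inl ?_))⟩
      · simp only [L, Set.mem_ofPred_eq] at hv ⊢; omega
      ext ⟨a, b, c⟩
      simp only [bone, ribbon, e₁, e₂, mem_insert, mem_singleton, Prod.mk_sub_mk,
        Prod.mk_add_mk, Prod.mk.injEq]
      omega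
    · refine ⟨(i, j, k), hv, Or.inl ?_⟩
      ext ⟨a, b, c⟩
      simp only [rightStone, ribbon, e₁, e₂, e₃, mem_insert, mem_singleton, Prod.mk_sub_mk,
        Prod.mk_add_mk, Prod.mk.injEq]
      omega
    · refine ⟨(i - 1, j, k + 1), ?_, Or.inr (Or.inl ?_)⟩
      · simp only [L, Set.mem_ofPred_eq] at hv ⊢; omega
      ext ⟨a, b, c⟩
      simp only [leftStone, ribbon, e₁, e₂, e₃, mem_insert, mem_singleton, Prod.mk_sub_mk,
        Prod.mk_add_mk, Prod.mk.injEq]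
      omega
    · refine ⟨(i, j - 1, k + 1), ?_, Or.inr (Or.inr (Or.inr ?_))⟩
      · simp only [L, Set.mem_ofPred_eq] at hv ⊢; omega
      ext ⟨a, b, c⟩
      simp only [bone, ribbon, e₂, e₃, mem_insert, mem_singleton, Prod.mk_sub_mk,
        Prod.mk_add_mk, Prod.mk.injEq]
      omega

end Pool.BZ
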