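import Pool.Agent.helper40.BZ.Geom

set_option autoImplicit false

namespace Pool.BZ

open Finset

/-- weight of a point -/
def wt (n : ℕ) (p : Pt) : ℤ :=
  if (p.2.2 - p.1) % 3 = 0 then 0
  else if (p.2.2 - p.1) % 3 = 1 then
    ((p.2.2 - p.1) / 3) * (12 * n + 12) +
      (if p.2.2 - p.1 < 0 then p.2.1 - p.1 else -(p.2.1 - p.1))
  else -(((p.2.2 - p.1) / 3) * (12 * n + 12)) +
      (if p.2.2 - p.1 < 0 then 2 - (p.2.1 - p.1) else p.2.1 - p.1 + 1)

lemma wt_zero {n : ℕ} {i j k : ℤ} (h : (k - i) % 3 = 0) : wt n (i, j, k) = 0 := by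
  unfold wt; simp [h]

lemma wt_one {n : ℕ} {i j k q : ℤ} (h : k - i = 3 * q + 1) :
    wt n (i, j, k) = q * (12 * n + 12) + (if q < 0 then j - i else -(j - i)) := by
  unfold wt
  have h1 : (k - i) % 3 = 1 := by omega
  have h2 : (k - i) / 3 = q := by omega
  simp only [h1, h2]
  have h3 : (k - i < 0) ↔ (q < 0) := by omega
  simp only [h3]
  simp

lemma wt_two {n : ℕ} {i j k q : ℤ} (h : k - i = 3 * q + 2) :
    wt n (i, j, k) = -(q * (12 * n + 12)) + (if q < 0 then 2 - (j - i) else j - i + 1) := by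
  unfold wt
  have h1 : (k - i) % 3 = 2 := by omega
  have h2 : (k - i) / 3 = q := by omega
  simp only [h1, h2]
  have h3 : (k - i < 0) ↔ (q < 0) := by omega
  simp only [h3]
  simp

lemma sum_ribbon {p a b : Pt} (ha : IsStep a) (hb : IsStep b) (f : Pt → ℤ) :
    ∑ x ∈ ribbon p a b, f x = f p + f (p + a) + f (p + a + b) := by
  obtain ⟨i, j, k⟩ := p
  unfold ribbon
  rw [sum_insert, sum_insert, sum_singleton]
  · ring
  · rcases ha with rfl | rfl <;> rcases hb with rfl | rfl <;>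
      simp
  · rcases ha with rfl | rfl <;> rcases hb with rfl | rfl <;>
    · simp only [Prod.mk_add_mk, mem_insert, mem_singleton, Prod.mk.injEq]
      omega

lemma sum_block (n : ℕ) (w : ℕ × ℕ) : ∑ p ∈ block n w, wt n p = 0 := by
  obtain ⟨m, x⟩ := w
  unfold block
  split_ifs with h
  · rw [sum_singleton]
    unfold cellPt
    split_ifs with hq
    · apply wt_zero; omega
    · apply wt_zero; omega
  · rw [sum_pair]
    · simp only
      unfold dom1 dom2
      split_ifs with hq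
      · rw [wt_one (q := ((m / 2 : ℕ) - n : ℤ)) (by ring), wt_two (q := ((m / 2 : ℕ) - n : ℤ)) (by ring)]
        rw [if_pos hq, if_pos hq]; ring
      · rw [wt_one (q := ((m / 2 : ℕ) - n : ℤ)) (by ring), wt_two (q := ((m / 2 : ℕ) - n : ℤ)) (by ring)]
        rw [if_neg hq, if_neg hq]; ring
    · simp only
      unfold dom1 dom2
      split_ifs with hq <;> simp [Prod.ext_iff]

lemma ribbon_start0 {n : ℕ} {i j k q : ℤ} {a b : Pt} (ha : IsStep a) (hb : IsStep b)
    (hk : k - i = 3 * q) :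
    0 ≤ wt n (i, j, k) + wt n ((i, j, k) + a) + wt n ((i, j, k) + a + b) ∧
      (wt n (i, j, k) + wt n ((i, j, k) + a) + wt n ((i, j, k) + a + b) = 0 →
        (q < 0 ∧ b = (-1, 1, 0)) ∨ (0 ≤ q ∧ b = (0, -1, 1))) := by
  rw [wt_zero (by omega)]
  have e1 : wt n ((i, j, k) + a) + wt n ((i, j, k) + a + b) =
      (if q < 0 then 2 - (b.2.1 - b.1) else b.2.1 - b.1 + 1) := by
    rcases ha with rfl | rfl <;> rcases hb with rfl | rfl <;>
      simp only [Prod.mk_add_mk] <;>
      (rw [wt_one (q := q) (by omega), wt_two (q := q) (by omega)]; split_ifs <;> ring)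
  rw [zero_add, e1]
  rcases hb with rfl | rfl
  · split_ifs with h
    · simp [h]
    · simp [h]
  · split_ifs with h
    · simp [h]
    · simp; omega

lemma ribbon_start1 {n : ℕ} {i j k q : ℤ} {a b : Pt} (ha : IsStep a) (hb : IsStep b)
    (hk : k - i = 3 * q + 1) :
    0 ≤ wt n (i, j, k) + wt n ((i, j, k) + a) + wt n ((i, j, k) + a + b) ∧
      (wt n (i, j, k) + wt n ((i, j, k) + a) + wt n ((i, j, k) + a + b) = 0 →
        (q < 0 ∧ a = (-1, 1, 0)) ∨ (0 ≤ q ∧ a = (0, -1, 1))) := by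
  have e1 : wt n (i, j, k) + wt n ((i, j, k) + a) + wt n ((i, j, k) + a + b) =
      (if q < 0 then 2 - (a.2.1 - a.1) else a.2.1 - a.1 + 1) := by
    have e2 : wt n ((i, j, k) + a + b) = 0 := by
      rcases ha with rfl | rfl <;> rcases hb with rfl | rfl <;>
        simp only [Prod.mk_add_mk] <;> exact wt_zero (by omega)
    rw [e2]
    rcases ha with rfl | rfl <;> 
      simp only [Prod.mk_add_mk] <;>
      (rw [wt_one (q := q) (by omega), wt_two (q := q) (by omega)]; split_ifs <;> ring)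
  rw [e1]
  rcases ha with rfl | rfl
  · split_ifs with h
    · simp [h]
    · simp [h]
  · split_ifs with h
    · simp [h]
    · simp; omega

lemma ribbon_start2 {n : ℕ} {i j k q : ℤ} {a b : Pt} (ha : IsStep a) (hb : IsStep b)
    (hk : k - i = 3 * q + 2) (h1 : -(3 * n : ℤ) ≤ j - i ∧ j - i ≤ 3 * n) :
    0 < wt n (i, j, k) + wt n ((i, j, k) + a) + wt n ((i, j, k) + a + b) := by
  have e2 : wt n ((i, j, k) + a) = 0 := by
    rcases ha with rfl | rfl <;> simp only [Prod.mk_add_mk] <;> exact wt_zero (by omega)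
  rw [e2, wt_two hk]
  rcases ha with rfl | rfl <;> rcases hb with rfl | rfl <;>
      simp only [Prod.mk_add_mk] <;>
      (rw [wt_one (q := q + 1) (by omega)]; split_ifs <;> nlinarith)

lemma block_even {n m x : ℕ} {p : Pt} (hm : m % 2 = 0) (h : p ∈ block n (m, x)) :
    block n (m, x) = {p} := by
  unfold block at h ⊢
  rw [if_pos hm] at h ⊢
  rw [mem_singleton] at h
  rw [h]

lemma block_odd {n m x : ℕ} {p p' : Pt} (hm : m % 2 = 1) (h : p ∈ block n (m, x))
    (h' : p' ∈ block n (m, x)) (hne : p ≠ p') : block n (m, x) = {p, p'} := by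
  have hm' : ¬ (m % 2 = 0) := by omega
  unfold block at h h' ⊢
  rw [if_neg hm'] at h h' ⊢
  rw [mem_insert, mem_singleton] at h h'
  rcases h with h | h <;> rcases h' with h' | h'
  · exact absurd (h.trans h'.symm) hne
  · rw [h, h']
  · rw [h, h', pair_comm]
  · exact absurd (h.trans h'.symm) hne

/-- the ribbon as an edge of the strip graph -/
lemma ribbon_edge {n : ℕ} {p a b : Pt} (ha : IsStep a) (hb : IsStep b)
    (hp : p ∈ benzel (3 * n + 1) (3 * n + 1)) (hpa : p + a ∈ benzel (3 * n + 1) (3 * n + 1))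
    (hpab : p + a + b ∈ benzel (3 * n + 1) (3 * n + 1)) :
    0 ≤ ∑ x ∈ ribbon p a b, wt n x ∧ (∑ x ∈ ribbon p a b, wt n x = 0 →
      ∃ e, Edge n e ∧ e ⊆ grid n ∧ ribbon p a b = e.biUnion (block n)) := by
  rw [sum_ribbon ha hb]
  obtain ⟨i, j, k⟩ := p
  obtain ⟨⟨m, x⟩, hw, hp1⟩ := mem_benzel_iff.1 hp
  obtain ⟨⟨m', x'⟩, hw', hp2⟩ := mem_benzel_iff.1 hpa
  obtain ⟨⟨m'', x''⟩, hw'', hp3⟩ := mem_benzel_iff.1 hpab
  rw [mem_benzel] at hp
  have hne1 : (i, j, k) + a ≠ (i, j, k) + a + b := by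
    rcases ha with rfl | rfl <;> rcases hb with rfl | rfl <;> simp
  have hne0 : (i, j, k) ≠ (i, j, k) + a := by
    rcases ha with rfl | rfl <;> simp [Prod.ext_iff]
  obtain ⟨q, hq⟩ : ∃ q : ℤ, q = (k - i) / 3 := ⟨_, rfl⟩
  have h5 : k - i = 3 * q ∨ k - i = 3 * q + 1 ∨ k - i = 3 * q + 2 := by omega
  rcases h5 with h5 | h5 | h5
  · obtain ⟨h6, h7⟩ := ribbon_start0 (n := n) (j := j) ha hb h5
    refine ⟨h6, fun h8 => ?_⟩
    have h9 := h7 h8
    have hA : m % 2 = 0 ∧ m' = m + 1 ∧ adj n m x x' ∧ m'' = m' ∧ x'' = x' := by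
      rw [mem_block, cellPt_iff, dom1_iff, dom2_iff] at hp1
      have hm : m % 2 = 0 ∧ (m / 2 : ℕ) - (n : ℤ) = q := by omega
      rcases ha with rfl | rfl <;> rcases hb with rfl | rfl <;>
      · simp only [Prod.mk_add_mk, Prod.mk.injEq] at hp2 hp3 h9
        rw [mem_block, cellPt_iff, dom1_iff, dom2_iff] at hp2 hp3
        have hm' : m' = m + 1 := by omega
        have hm'' : m'' = m + 1 := by omega
        subst hm' hm''
        unfold adj
        omega
    obtain ⟨hm, rfl, hadj, rfl, rfl⟩ := hA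
    refine ⟨{(m, x), (m + 1, x'')}, ⟨m, x, x'', hadj, rfl⟩, ?_, ?_⟩
    · intro w hw1
      rw [mem_insert, mem_singleton] at hw1
      rcases hw1 with rfl | rfl <;> assumption
    · rw [biUnion_insert, singleton_biUnion, block_even hm hp1,
        block_odd (by omega) hp2 hp3 hne1]
      rfl
  · obtain ⟨h6, h7⟩ := ribbon_start1 (n := n) (j := j) ha hb h5
    refine ⟨h6, fun h8 => ?_⟩
    have h9 := h7 h8
    have hA : m % 2 = 1 ∧ m'' = m + 1 ∧ adj n m x x'' ∧ m = m' ∧ x = x' := by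
      rw [mem_block, cellPt_iff, dom1_iff, dom2_iff] at hp1
      have hm : m % 2 = 1 ∧ (m / 2 : ℕ) - (n : ℤ) = q := by omega
      rcases ha with rfl | rfl <;> rcases hb with rfl | rfl <;>
      · simp only [Prod.mk_add_mk, Prod.mk.injEq] at hp2 hp3 h9
        rw [mem_block, cellPt_iff, dom1_iff, dom2_iff] at hp2 hp3
        have hm' : m = m' := by omega
        have hm'' : m'' = m + 1 := by omega
        subst hm' hm''
        unfold adj
        omega
    obtain ⟨hm, rfl, hadj, rfl, rfl⟩ := hA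
    refine ⟨{(m, x), (m + 1, x'')}, ⟨m, x, x'', hadj, rfl⟩, ?_, ?_⟩
    · intro w hw1
      rw [mem_insert, mem_singleton] at hw1
      rcases hw1 with rfl | rfl <;> assumption
    · rw [biUnion_insert, singleton_biUnion, block_even (by omega) hp3,
        block_odd hm hp1 hp2 hne0]
      ext z
      simp only [ribbon, mem_insert, mem_union, mem_singleton]
      tauto
  · have h6 := ribbon_start2 (n := n) (j := j) ha hb h5 hp.2.1
    exact ⟨h6.le, fun h => absurd h h6.ne'⟩

/-- an edge is a ribbon -/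
lemma edge_ribbon {n m x x' : ℕ} (h : adj n m x x') (h1 : (m, x) ∈ grid n)
    (h2 : (m + 1, x') ∈ grid n) :
    IsTile (({(m, x), (m + 1, x')} : Finset (ℕ × ℕ)).biUnion (block n)) := by
  rw [isTile_iff, biUnion_insert, singleton_biUnion]
  rcases Nat.mod_two_eq_zero_or_one m with hm | hm
  · obtain ⟨p, hp⟩ : ∃ p, p = cellPt n ((m / 2 : ℕ) - n : ℤ) x := ⟨_, rfl⟩
    obtain ⟨p1, hp1⟩ : ∃ p1, p1 = dom1 n (((m + 1) / 2 : ℕ) - n : ℤ) x' := ⟨_, rfl⟩
    obtain ⟨p2, hp2⟩ : ∃ p2, p2 = dom2 n (((m + 1) / 2 : ℕ) - n : ℤ) x' := ⟨_, rfl⟩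
    have e1 : block n (m, x) = {p} := by
      unfold block; rw [if_pos hm, hp]
    have e2 : block n (m + 1, x') = {p1, p2} := by
      unfold block; rw [if_neg (by simp only; omega), hp1, hp2]
    rw [e1, e2]
    obtain ⟨i, j, k⟩ := p
    obtain ⟨i1, j1, k1⟩ := p1
    obtain ⟨i2, j2, k2⟩ := p2
    rw [cellPt_iff] at hp
    rw [dom1_iff] at hp1
    rw [dom2_iff] at hp2
    unfold adj at h
    refine ⟨(i, j, k), ?_, (i1 - i, j1 - j, k1 - k), (i2 - i1, j2 - j1, k2 - k1), ?_, ?_, ?_⟩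
    · simp only [L, Set.mem_ofPred_eq]
      omega
    · unfold IsStep
      simp only [Prod.mk.injEq]
      omega
    · unfold IsStep
      simp only [Prod.mk.injEq]
      omega
    · unfold ribbon
      simp only [Prod.mk_add_mk]
      have a1 : i + (i1 - i) = i1 := by ring
      have a2 : j + (j1 - j) = j1 := by ring
      have a3 : k + (k1 - k) = k1 := by ring
      have a4 : i1 + (i2 - i1) = i2 := by ring
      have a5 : j1 + (j2 - j1) = j2 := by ring
      have a6 : k1 + (k2 - k1) = k2 := by ring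
      rw [a1, a2, a3, a4, a5, a6]
      rfl
  · obtain ⟨p, hp⟩ : ∃ p, p = cellPt n (((m + 1) / 2 : ℕ) - n : ℤ) x' := ⟨_, rfl⟩
    obtain ⟨p1, hp1⟩ : ∃ p1, p1 = dom1 n ((m / 2 : ℕ) - n : ℤ) x := ⟨_, rfl⟩
    obtain ⟨p2, hp2⟩ : ∃ p2, p2 = dom2 n ((m / 2 : ℕ) - n : ℤ) x := ⟨_, rfl⟩
    have e1 : block n (m + 1, x') = {p} := by
      unfold block; rw [if_pos (by simp only; omega), hp]
    have e2 : block n (m, x) = {p1, p2} := by
      unfold block; rw [if_neg (by simp only; omega), hp1, hp2]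
    rw [e1, e2]
    obtain ⟨i, j, k⟩ := p
    obtain ⟨i1, j1, k1⟩ := p1
    obtain ⟨i2, j2, k2⟩ := p2
    rw [cellPt_iff] at hp
    rw [dom1_iff] at hp1
    rw [dom2_iff] at hp2
    unfold adj at h
    refine ⟨(i1, j1, k1), ?_, (i2 - i1, j2 - j1, k2 - k1), (i - i2, j - j2, k - k2), ?_, ?_, ?_⟩
    · simp only [L, Set.mem_ofPred_eq]
      omega
    · unfold IsStep
      simp only [Prod.mk.injEq]
      omega
    · unfold IsStep
      simp only [Prod.mk.injEq]
      omega
    · unfold ribbon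
      simp only [Prod.mk_add_mk]
      have a1 : i1 + (i2 - i1) = i2 := by ring
      have a2 : j1 + (j2 - j1) = j2 := by ring
      have a3 : k1 + (k2 - k1) = k2 := by ring
      have a4 : i2 + (i - i2) = i := by ring
      have a5 : j2 + (j - j2) = j := by ring
      have a6 : k2 + (k - k2) = k := by ring
      rw [a1, a2, a3, a4, a5, a6]
      ext z
      simp only [mem_insert, mem_union, mem_singleton]
      tauto

theorem T_eq_tau (n : ℕ) : T n = tau (Edge n) (grid n) := by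
  set V : Finset Pt := (grid n).biUnion (block n) with hV
  have hmem : ∀ p, p ∈ V ↔ p ∈ benzel (3 * n + 1) (3 * n + 1) := by
    intro p
    rw [hV, mem_biUnion, mem_benzel_iff]
  have hset : benzel (3 * n + 1) (3 * n + 1) = (V : Set Pt) := by
    ext p
    rw [mem_coe, hmem]
  have e1 : T n = tau IsTile V := by
    unfold T
    rw [hset, natCard_covers]
  rw [e1]
  refine tau_blow IsTile (Edge n) V (grid n) (block n) ?_ ?_ ?_ ?_ ?_
  · rintro ⟨m, x⟩ _
    unfold block
    split_ifs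
    · exact singleton_nonempty _
    · exact insert_nonempty _ _
  · intro w _ w' _ p hp hp'
    exact block_inj hp hp'
  · intro p
    rw [hmem, mem_benzel_iff]
  · rintro e ⟨m, x, x', hadj, rfl⟩ hsub
    exact edge_ribbon hadj (hsub (mem_insert_self _ _))
      (hsub (mem_insert_of_mem (mem_singleton_self _)))
  · intro P hP t ht
    have hPU : P.biUnion id = V := by
      ext p
      rw [mem_biUnion]
      have := hP.2.2 p
      rw [mem_coe] at this
      rw [this]
      rfl
    have htot : ∑ t ∈ P, ∑ p ∈ t, wt n p = 0 := by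
      have h1 : ∑ p ∈ V, wt n p = ∑ t ∈ P, ∑ p ∈ t, wt n p := by
        rw [← hPU]
        exact sum_biUnion (fun s hs s' hs' hne => hP.2.1 s hs s' hs' hne)
      rw [← h1, hV, sum_biUnion]
      · exact sum_eq_zero (fun w _ => sum_block n w)
      · intro w _ w' _ hne
        rw [Function.onFun, Finset.disjoint_left]
        intro p hp hp'
        exact hne (block_inj hp hp')
    have hall : ∀ s ∈ P, 0 ≤ ∑ p ∈ s, wt n p ∧ (∑ p ∈ s, wt n p = 0 →
      ∃ e, Edge n e ∧ e ⊆ grid n ∧ s = e.biUnion (block n)) := by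
      intro s hs
      obtain ⟨p, hp, a, b, ha, hb, rfl⟩ := (isTile_iff s).1 (hP.1 s hs)
      have hsub := hP.subset _ hs
      refine ribbon_edge ha hb ?_ ?_ ?_
      · exact (hmem _).1 (hsub (by unfold ribbon; simp))
      · exact (hmem _).1 (hsub (by unfold ribbon; simp))
      · exact (hmem _).1 (hsub (by unfold ribbon; simp))
    have := (sum_eq_zero_iff_of_nonneg (fun s hs => (hall s hs).1)).1 htot t ht
    exact (hall t ht).2 this

end Pool.BZ
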