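import Pool.Agent.helper40.BZ.Geom2

/-! # Peeling the strip graph -/

set_option autoImplicit false

namespace Pool.BZ

open Finset

/-- columns `< M` of the strip, `S` in column `M` and `S'` in column `M+1` -/
def region (n M : ℕ) (S S' : Finset ℕ) : Finset (ℕ × ℕ) :=
  (grid n).filter (fun w => w.1 < M) ∪ S.image (fun y => (M, y)) ∪ S'.image (fun x => (M + 1, x))

lemma mem_region {n M : ℕ} {S S' : Finset ℕ} {m x : ℕ} :
    (m, x) ∈ region n M S S' ↔
      ((m, x) ∈ grid n ∧ m < M) ∨ (m = M ∧ x ∈ S) ∨ (m = M + 1 ∧ x ∈ S') := by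
  unfold region
  simp only [mem_union, mem_filter, mem_image, Prod.mk.injEq]
  constructor
  · rintro ((⟨h1, h2⟩ | ⟨y, hy, rfl, rfl⟩) | ⟨y, hy, rfl, rfl⟩)
    · exact Or.inl ⟨h1, h2⟩
    · exact Or.inr (Or.inl ⟨rfl, hy⟩)
    · exact Or.inr (Or.inr ⟨rfl, hy⟩)
  · rintro (⟨h1, h2⟩ | ⟨rfl, h⟩ | ⟨rfl, h⟩)
    · exact Or.inl (Or.inl ⟨h1, h2⟩)
    · exact Or.inl (Or.inr ⟨x, h, rfl, rfl⟩)
    · exact Or.inr ⟨x, h, rfl, rfl⟩

/-- number of perfect matchings of the region -/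
noncomputable def tt (n M : ℕ) (S S' : Finset ℕ) : ℕ := tau (Edge n) (region n M S S')

lemma region_sdiff {n M y x : ℕ} {S S' : Finset ℕ} :
    region n M S S' \ {(M, y), (M + 1, x)} = region n M (S.erase y) (S'.erase x) := by
  ext ⟨m, z⟩
  rw [mem_sdiff, mem_region, mem_region, mem_insert, mem_singleton, mem_erase, mem_erase,
    Prod.mk.injEq, Prod.mk.injEq]
  constructor
  · rintro ⟨h1 | ⟨rfl, h⟩ | ⟨rfl, h⟩, h2⟩
    · exact Or.inl h1
    · right; left
      refine ⟨rfl, fun hz => h2 (Or.inl ⟨rfl, hz⟩), h⟩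
    · right; right
      refine ⟨rfl, fun hz => h2 (Or.inr ⟨rfl, hz⟩), h⟩
  · rintro (h1 | ⟨rfl, h, h'⟩ | ⟨rfl, h, h'⟩)
    · refine ⟨Or.inl h1, ?_⟩
      rintro (⟨rfl, _⟩ | ⟨rfl, _⟩)
      · exact absurd h1.2 (lt_irrefl _)
      · omega
    · refine ⟨Or.inr (Or.inl ⟨rfl, h'⟩), ?_⟩
      rintro (⟨_, hz⟩ | ⟨hm, _⟩)
      · exact h hz
      · omega
    · refine ⟨Or.inr (Or.inr ⟨rfl, h'⟩), ?_⟩
      rintro (⟨hm, _⟩ | ⟨_, hz⟩)
      · omega
      · exact h hz

open Classical in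
lemma tt_peel {n M x : ℕ} {S S' : Finset ℕ} (hx : x ∈ S') :
    tt n M S S' = ∑ y ∈ S.filter (fun y => adj n M y x), tt n M (S.erase y) (S'.erase x) := by
  unfold tt
  rw [tau_peel (Edge n) (region n M S S') (M + 1, x) (mem_region.2 (Or.inr (Or.inr ⟨rfl, hx⟩)))
    ((S.filter (fun y => adj n M y x)).image (fun y => {(M, y), (M + 1, x)})), sum_image]
  · refine sum_congr rfl fun y _ => ?_
    rw [region_sdiff]
  · intro y _ y' _ h
    have : (M, y) ∈ ({(M, y'), (M + 1, x)} : Finset (ℕ × ℕ)) := by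
      simp only at h
      rw [← h]; exact mem_insert_self _ _
    rw [mem_insert, mem_singleton, Prod.mk.injEq, Prod.mk.injEq] at this
    omega
  · intro t
    rw [mem_image]
    constructor
    · rintro ⟨y, hy, rfl⟩
      rw [mem_filter] at hy
      refine ⟨⟨M, y, x, hy.2, rfl⟩, by simp, ?_⟩
      intro w hw
      rw [mem_insert, mem_singleton] at hw
      rcases hw with rfl | rfl
      · exact mem_region.2 (Or.inr (Or.inl ⟨rfl, hy.1⟩))
      · exact mem_region.2 (Or.inr (Or.inr ⟨rfl, hx⟩))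
    · rintro ⟨⟨m, a, b, hadj, rfl⟩, h1, h2⟩
      rw [mem_insert, mem_singleton, Prod.mk.injEq, Prod.mk.injEq] at h1
      rcases h1 with ⟨rfl, rfl⟩ | ⟨h1, rfl⟩
      · exfalso
        have : (M + 1 + 1, b) ∈ region n M S S' := h2 (by simp)
        rw [mem_region] at this
        omega
      · have hm : m = M := by omega
        subst hm
        have : (m, a) ∈ region n m S S' := h2 (by simp)
        rw [mem_region] at this
        have ha : a ∈ S := by
          rcases this with h | h | h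
          · omega
          · exact h.2
          · omega
        exact ⟨a, mem_filter.2 ⟨ha, hadj⟩, rfl⟩

lemma peelL {n M c : ℕ} {S S' : Finset ℕ} (hM : M < 2 * n) (hx : c + 1 ∈ S') :
    tt n M S S' = (if c + 1 ∈ S then tt n M (S.erase (c + 1)) (S'.erase (c + 1)) else 0) +
      (if c ∈ S then tt n M (S.erase c) (S'.erase (c + 1)) else 0) := by
  classical
  rw [tt_peel hx]
  have : S.filter (fun y => adj n M y (c + 1)) = ({c + 1, c} : Finset ℕ).filter (fun y => y ∈ S) := by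
    ext y
    rw [mem_filter, mem_filter, mem_insert, mem_singleton]
    unfold adj
    constructor
    · rintro ⟨h1, h2⟩
      exact ⟨by omega, h1⟩
    · rintro ⟨h1, h2⟩
      exact ⟨h2, by omega⟩
  rw [this, sum_filter, sum_pair (by omega)]

lemma peelR {n M x : ℕ} {S S' : Finset ℕ} (hM : 2 * n ≤ M) (hx : x ∈ S') :
    tt n M S S' = (if x ∈ S then tt n M (S.erase x) (S'.erase x) else 0) +
      (if x + 1 ∈ S then tt n M (S.erase (x + 1)) (S'.erase x) else 0) := by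
  classical
  rw [tt_peel hx]
  have : S.filter (fun y => adj n M y x) = ({x, x + 1} : Finset ℕ).filter (fun y => y ∈ S) := by
    ext y
    rw [mem_filter, mem_filter, mem_insert, mem_singleton]
    unfold adj
    constructor
    · rintro ⟨h1, h2⟩
      exact ⟨by omega, h1⟩
    · rintro ⟨h1, h2⟩
      exact ⟨h2, by omega⟩
  rw [this, sum_filter, sum_pair (by omega)]

lemma tt_succ {n M : ℕ} {S : Finset ℕ} (hM : M ≤ 4 * n) :
    tt n (M + 1) S ∅ = tt n M (Icc 1 (size n M)) S := by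
  unfold tt
  congr 1
  ext ⟨m, x⟩
  rw [mem_region, mem_region, mem_grid, mem_Icc]
  simp only
  constructor
  · rintro (⟨h, h1⟩ | ⟨h, h'⟩ | ⟨_, h⟩)
    · rcases Nat.lt_succ_iff_lt_or_eq.1 h1 with h2 | rfl
      · exact Or.inl ⟨h, h2⟩
      · exact Or.inr (Or.inl ⟨rfl, h.2⟩)
    · exact Or.inr (Or.inr ⟨h, h'⟩)
    · exact absurd h (notMem_empty _)
  · rintro (⟨h, h1⟩ | ⟨rfl, h'⟩ | ⟨rfl, h⟩)
    · exact Or.inl ⟨h, by omega⟩
    · exact Or.inl ⟨⟨hM, h'⟩, by omega⟩
    · exact Or.inr (Or.inl ⟨rfl, h⟩)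

lemma tt_zero (n : ℕ) : tt n 0 ∅ ∅ = 1 := by
  unfold tt
  have : region n 0 ∅ ∅ = ∅ := by
    ext ⟨m, x⟩
    rw [mem_region]
    simp
  rw [this]
  refine tau_empty _ ?_
  rintro ⟨m, x, x', _, h⟩
  exact absurd h (Finset.insert_ne_empty _ _).symm

lemma grid_eq (n : ℕ) : tau (Edge n) (grid n) = tt n (4 * n) (Icc 1 (size n (4 * n))) ∅ := by
  unfold tt
  congr 1
  ext ⟨m, x⟩
  rw [mem_region, mem_grid, mem_Icc]
  simp only
  constructor
  · intro h
    rcases Nat.lt_or_ge m (4 * n) with h2 | h2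
    · exact Or.inl ⟨h, h2⟩
    · have : m = 4 * n := le_antisymm h.1 h2
      subst this
      exact Or.inr (Or.inl ⟨rfl, h.2⟩)
  · rintro (⟨h, _⟩ | ⟨rfl, h'⟩ | ⟨_, h⟩)
    · exact h
    · exact ⟨le_refl _, h'⟩
    · exact absurd h (notMem_empty _)

end Pool.BZ
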