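import Pool.Agent.helper40.BZ.Steps

set_option autoImplicit false

namespace Pool.BZ

open Finset

lemma filter_not_mem {V : Finset ℕ} {c : ℕ} (h : c + 1 ∈ V) :
    (Icc 1 (c + 1)).filter (fun x => x ∉ V) = (Icc 1 c).filter (fun x => x ∉ V) := by
  ext x
  simp only [mem_filter, mem_Icc]
  constructor
  · rintro ⟨h1, h2⟩
    have : x ≠ c + 1 := fun hh => h2 (hh ▸ h)
    exact ⟨by omega, h2⟩
  · rintro ⟨h1, h2⟩
    exact ⟨by omega, h2⟩

lemma filter_erase {p : ℕ → Prop} [DecidablePred p] {c : ℕ} :
    ((Icc 1 (c + 1)).filter p).erase (c + 1) = (Icc 1 c).filter p := by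
  ext x
  simp only [mem_erase, mem_filter, mem_Icc]
  constructor
  · rintro ⟨h, h1, h2⟩
    exact ⟨by omega, h2⟩
  · rintro ⟨h1, h2⟩
    exact ⟨by omega, by omega, h2⟩

lemma filter_skip {p : ℕ → Prop} [DecidablePred p] {c : ℕ} (h : ¬ p (c + 1)) :
    (Icc 1 (c + 1)).filter p = (Icc 1 c).filter p := by
  ext x
  simp only [mem_filter, mem_Icc]
  constructor
  · rintro ⟨h1, h2⟩
    have : x ≠ c + 1 := fun hh => h (hh ▸ h2)
    exact ⟨by omega, h2⟩
  · rintro ⟨h1, h2⟩
    exact ⟨by omega, h2⟩

lemma union_erase_top {lo hi c : ℕ} {α : List ℕ} (h : SL lo hi α) (hc : c + 1 < lo) :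
    (Icc 1 (c + 1) ∪ α.toFinset).erase (c + 1) = Icc 1 c ∪ α.toFinset := by
  ext x
  simp only [mem_erase, mem_union, mem_Icc, List.mem_toFinset]
  have := h.2 x
  by_cases hx : x ∈ α
  · have := this hx
    simp [hx]; omega
  · simp [hx]; omega

lemma union_erase_under {lo hi c : ℕ} {α : List ℕ} (h : SL lo hi α) (hc : c + 1 < lo) :
    (Icc 1 (c + 1) ∪ α.toFinset).erase c = Icc 1 (c - 1) ∪ ((c + 1) :: α).toFinset := by
  ext x
  simp only [mem_erase, mem_union, mem_Icc, List.mem_toFinset, List.mem_cons]
  have := h.2 x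
  by_cases hx : x ∈ α
  · have := this hx
    simp [hx]; omega
  · simp [hx]; omega

lemma union_erase_mid {lo hi c : ℕ} {α : List ℕ} (h : SL lo hi α) (hc : c < lo) :
    (Icc 1 c ∪ α.toFinset).erase c = Icc 1 (c - 1) ∪ α.toFinset := by
  ext x
  simp only [mem_erase, mem_union, mem_Icc, List.mem_toFinset]
  have := h.2 x
  by_cases hx : x ∈ α
  · have := this hx
    simp [hx]; omega
  · simp [hx]; omega

lemma union_cons {c : ℕ} {α : List ℕ} :
    Icc 1 (c + 1) ∪ α.toFinset = Icc 1 c ∪ ((c + 1) :: α).toFinset := by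
  ext x
  simp only [mem_union, mem_Icc, List.mem_toFinset, List.mem_cons]
  by_cases hx : x ∈ α
  · simp [hx]
  · simp [hx]; omega

lemma not_mem_of_SL {lo hi c : ℕ} {α : List ℕ} (h : SL lo hi α) (hc : c < lo) : c ∉ α := by
  intro hm
  have := h.2 c hm
  omega

/-- left half, first step -/
theorem left_a {n M N l : ℕ} (hM : M < 2 * n) (c h : ℕ → ℕ → ℚ)
    (h1 : h 1 = e0) (h2 : ∀ x, h (x + 2) = h (x + 1) + shift (c (x + 1)))
    (IH : ∀ α : List ℕ, SL 1 N α → α.length = l → (tt n M α.toFinset ∅ : ℚ) = D l (α.map c))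
    (V : Finset ℕ) : ∀ k : ℕ,
    (k ≤ N → ∀ α : List ℕ, SL (k + 1) N α → (AL V k).length + α.length = l →
      (tt n M (Icc 1 k ∪ α.toFinset) ((Icc 1 k).filter (fun x => x ∉ V)) : ℚ) =
        D (l + 1) ((AL V k).map h ++ h (k + 1) :: α.map (fun x => shift (c x)))) ∧
    (1 ≤ k → k ≤ N + 1 → ∀ α : List ℕ, SL (k + 1) N α → (AL V k).length + α.length = l + 1 →
      (tt n M (Icc 1 (k - 1) ∪ α.toFinset) ((Icc 1 k).filter (fun x => x ∉ V)) : ℚ) =
        D (l + 1) ((AL V k).map h ++ α.map (fun x => shift (c x)))) := by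
  have hmap : ∀ α : List ℕ, α.map (fun x => shift (c x)) = (α.map c).map shift := by
    intro α; rw [List.map_map]; rfl
  intro k
  induction k with
  | zero =>
    refine ⟨fun _ α hα hl => ?_, fun h => absurd h (by omega)⟩
    rw [AL_zero] at hl ⊢
    have e1 : Icc 1 0 ∪ α.toFinset = α.toFinset := by simp
    have e2 : (Icc 1 0).filter (fun x => x ∉ V) = ∅ := by simp
    rw [e1, e2, IH α hα (by simpa using hl), h1, hmap]
    simp only [List.map_nil, List.nil_append]
    rw [D_e0]
  | succ k ih =>
    obtain ⟨ih1, ih2⟩ := ih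
    refine ⟨fun hk α hα hl => ?_, fun _ hk α hα hl => ?_⟩
    · by_cases hV : k + 1 ∈ V
      · rw [AL_succ_mem hV] at hl ⊢
        rw [filter_not_mem hV, union_cons, ih1 (by omega) ((k + 1) :: α) (hα.cons (le_refl _) hk)
          (by simp at hl ⊢; omega)]
        rw [List.map_append, List.append_assoc]
        simp only [List.map_cons, List.map_nil, List.cons_append, List.nil_append]
        rw [h2 k, D_adj]
        simp at hl ⊢; omega
      · rw [AL_succ_not hV] at hl ⊢
        have hx : k + 1 ∈ (Icc 1 (k + 1)).filter (fun x => x ∉ V) := by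
          rw [mem_filter, mem_Icc]; exact ⟨by omega, hV⟩
        rw [peelL hM hx]
        have hin : k + 1 ∈ Icc 1 (k + 1) ∪ α.toFinset := by
          rw [mem_union, mem_Icc]; left; omega
        rw [if_pos hin, filter_erase, union_erase_top hα (by omega), union_erase_under hα (by omega)]
        push_cast
        rw [ih1 (by omega) α (hα.mono (by omega)) hl, h2 k, D_add _ _ _ _ (by simp; omega)]
        congr 1
        rcases Nat.eq_zero_or_pos k with rfl | hk0
        · have hni : 0 ∉ Icc 1 (0 + 1) ∪ α.toFinset := by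
            rw [mem_union, mem_Icc, List.mem_toFinset]
            have := not_mem_of_SL hα (c := 0) (by omega)
            simp [this]
          rw [if_neg hni, AL_zero]
          simp only [List.map_nil, List.nil_append]
          have : shift (c (0 + 1)) :: α.map (fun x => shift (c x)) =
            (((0 + 1) :: α).map c).map shift := by rw [← hmap]; rfl
          rw [this, D_shift]
        · have hi : k ∈ Icc 1 (k + 1) ∪ α.toFinset := by
            rw [mem_union, mem_Icc]; left; omega
          rw [if_pos hi, ih2 hk0 (by omega) ((k + 1) :: α) (hα.cons (le_refl _) hk)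
            (by simp; omega)]
          rfl
    · rw [Nat.add_sub_cancel]
      by_cases hV : k + 1 ∈ V
      · rw [AL_succ_mem hV] at hl ⊢
        rw [filter_not_mem hV, ih1 (by omega) α (hα.mono (by omega)) (by simp at hl ⊢; omega)]
        rw [List.map_append, List.append_assoc]
        rfl
      · rw [AL_succ_not hV] at hl ⊢
        have hx : k + 1 ∈ (Icc 1 (k + 1)).filter (fun x => x ∉ V) := by
          rw [mem_filter, mem_Icc]; exact ⟨by omega, hV⟩
        rw [peelL hM hx]
        have hni : k + 1 ∉ Icc 1 k ∪ α.toFinset := by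
          rw [mem_union, mem_Icc, List.mem_toFinset]
          have := not_mem_of_SL hα (c := k + 1) (by omega)
          simp [this]
        rw [if_neg hni, zero_add, filter_erase, union_erase_mid hα (by omega)]
        rcases Nat.eq_zero_or_pos k with rfl | hk0
        · have hni : 0 ∉ Icc 1 0 ∪ α.toFinset := by
            rw [mem_union, mem_Icc, List.mem_toFinset]
            have := not_mem_of_SL hα (c := 0) (by omega)
            simp [this]
          rw [if_neg hni, AL_zero]
          simp only [List.map_nil, List.nil_append, Nat.cast_zero]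
          rw [hmap, D_shift]
        · have hi : k ∈ Icc 1 k ∪ α.toFinset := by
            rw [mem_union, mem_Icc]; left; omega
          rw [if_pos hi, ih2 hk0 (by omega) α (hα.mono (by omega)) hl]

/-- left half, first step, final form -/
theorem left_a' {n M N l : ℕ} (hM : M < 2 * n) (c h : ℕ → ℕ → ℚ)
    (h1 : h 1 = e0) (h2 : ∀ x, h (x + 2) = h (x + 1) + shift (c (x + 1)))
    (IH : ∀ α : List ℕ, SL 1 N α → α.length = l → (tt n M α.toFinset ∅ : ℚ) = D l (α.map c))
    (hN : size n M = N) (V : List ℕ) (hV : SL 1 (N + 1) V) (hl : V.length = l + 1) :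
    (tt n (M + 1) (Icc 1 (N + 1) \ V.toFinset) ∅ : ℚ) = D (l + 1) (V.map h) := by
  have := (left_a hM c h h1 h2 IH V.toFinset (N + 1)).2 (by omega) (le_refl _) [] (SL_nil _ _)
    (by rw [AL_toFinset hV]; simpa using hl)
  rw [AL_toFinset hV] at this
  rw [tt_succ (by omega), hN]
  simp only [List.toFinset_nil, union_empty, List.map_nil, List.append_nil,
    Nat.add_sub_cancel] at this
  rw [← this]
  congr 2
  ext x
  simp only [mem_sdiff, mem_filter, mem_Icc, List.mem_toFinset]

/-- left half, second step -/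
theorem left_b {n M N l : ℕ} (hM : M < 2 * n) (h g : ℕ → ℕ → ℚ)
    (h0 : h 0 = 0) (hg : ∀ x, g (x + 1) = h (x + 1) + h x)
    (IH : ∀ V : List ℕ, SL 1 N V → V.length = l →
      (tt n M (Icc 1 N \ V.toFinset) ∅ : ℚ) = D l (V.map h))
    (A : Finset ℕ) : ∀ k : ℕ, k ≤ N → ∀ V : List ℕ, SL 1 N V → SL k N V →
      (AL A k).length + V.length = l →
      (tt n M (Icc 1 N \ V.toFinset) ((Icc 1 k).filter (fun x => x ∈ A)) : ℚ) =
        D l ((AL A k).map g ++ V.map h) := by
  intro k
  induction k with
  | zero =>
    intro _ V hV _ hl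
    rw [AL_zero] at hl ⊢
    have e2 : (Icc 1 0).filter (fun x => x ∈ A) = ∅ := by simp
    rw [e2, IH V hV (by simpa using hl)]
    rfl
  | succ k ih =>
    intro hk V hV1 hV hl
    by_cases hA : k + 1 ∈ A
    · rw [AL_succ_mem hA] at hl ⊢
      have hx : k + 1 ∈ (Icc 1 (k + 1)).filter (fun x => x ∈ A) := by
        rw [mem_filter, mem_Icc]; exact ⟨by omega, hA⟩
      rw [peelL hM hx, filter_erase]
      push_cast
      rw [List.map_append, List.append_assoc]
      simp only [List.map_cons, List.map_nil, List.cons_append, List.nil_append]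
      have hl' : (AL A k).length + 1 + V.length = l := by simpa using hl
      rw [hg k, D_add _ _ _ _ (by rw [List.length_map]; omega)]
      congr 1
      · by_cases hm : k + 1 ∈ V
        · obtain ⟨W, rfl⟩ := hV.head hm
          have hni : k + 1 ∉ Icc 1 N \ ((k + 1) :: W).toFinset := by simp
          rw [if_neg hni]
          simp only [List.map_cons]
          rw [D_eq _ _ _ (by rw [List.length_map]; simp at hl'; omega)]
        · have hi : k + 1 ∈ Icc 1 N \ V.toFinset := by
            rw [mem_sdiff, mem_Icc, List.mem_toFinset]; exact ⟨by omega, hm⟩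
          have hV' := hV.not_head hm
          have e : (Icc 1 N \ V.toFinset).erase (k + 1) = Icc 1 N \ ((k + 1) :: V).toFinset := by
            ext x
            simp only [mem_erase, mem_sdiff, mem_Icc, List.mem_toFinset, List.mem_cons]
            tauto
          rw [if_pos hi, e, ih (by omega) ((k + 1) :: V) (hV'.cons (by omega) hk)
            (hV'.cons (by omega) hk) (by rw [List.length_cons]; omega)]
          rfl
      · rcases Nat.eq_zero_or_pos k with rfl | hk0
        · have hni : 0 ∉ Icc 1 N \ V.toFinset := by simp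
          rw [if_neg hni, h0, D_zero _ _ (by rw [List.length_map]; omega)]
        · have hm : k ∉ V := not_mem_of_SL hV (by omega)
          have hi : k ∈ Icc 1 N \ V.toFinset := by
            rw [mem_sdiff, mem_Icc, List.mem_toFinset]; exact ⟨by omega, hm⟩
          have e : (Icc 1 N \ V.toFinset).erase k = Icc 1 N \ (k :: V).toFinset := by
            ext x
            simp only [mem_erase, mem_sdiff, mem_Icc, List.mem_toFinset, List.mem_cons]
            tauto
          rw [if_pos hi, e, ih (by omega) (k :: V) (hV.cons (by omega) (by omega))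
            (hV.cons (by omega) (by omega)) (by rw [List.length_cons]; omega)]
          rfl
    · rw [AL_succ_not hA] at hl ⊢
      rw [filter_skip hA, ih (by omega) V hV1 (hV.mono (by omega)) hl]

/-- left half, second step, final form -/
theorem left_b' {n M N l : ℕ} (hM : M < 2 * n) (h g : ℕ → ℕ → ℚ)
    (h0 : h 0 = 0) (hg : ∀ x, g (x + 1) = h (x + 1) + h x)
    (IH : ∀ V : List ℕ, SL 1 N V → V.length = l →
      (tt n M (Icc 1 N \ V.toFinset) ∅ : ℚ) = D l (V.map h))
    (hN : size n M = N) (α : List ℕ) (hα : SL 1 N α) (hl : α.length = l) :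
    (tt n (M + 1) α.toFinset ∅ : ℚ) = D l (α.map g) := by
  have := left_b hM h g h0 hg IH α.toFinset N (le_refl _) [] (SL_nil _ _) (SL_nil _ _)
    (by rw [AL_toFinset hα]; simpa using hl)
  rw [AL_toFinset hα] at this
  rw [tt_succ (by omega), hN]
  simp only [List.toFinset_nil, sdiff_empty, List.map_nil, List.append_nil] at this
  rw [← this]
  congr 2
  ext x
  simp only [mem_filter, mem_Icc, List.mem_toFinset]
  have := hα.2 x
  constructor
  · intro hx; exact ⟨this hx, hx⟩
  · exact fun hx => hx.2

end Pool.BZ
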