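import Pool.Agent.helper40.BZ.LeftStep

set_option autoImplicit false

namespace Pool.BZ

open Finset

lemma union_erase_next {hi c : ℕ} {α : List ℕ} (h : SL (c + 3) hi α) :
    (Icc 1 (c + 2) ∪ α.toFinset).erase (c + 1) = Icc 1 c ∪ ((c + 2) :: α).toFinset := by
  ext x
  simp only [mem_erase, mem_union, mem_Icc, List.mem_toFinset, List.mem_cons]
  have := h.2 x
  by_cases hx : x ∈ α
  · have := this hx
    simp [hx]; omega
  · simp [hx]; omega

/-- right half, first step -/
theorem right_a {n M N l : ℕ} (hM : 2 * n ≤ M) (c h : ℕ → ℕ → ℚ)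
    (h1 : h 1 = c 1) (h2 : ∀ x, h (x + 2) = h (x + 1) + c (x + 2))
    (IH : ∀ α : List ℕ, SL 1 N α → α.length = l → (tt n M α.toFinset ∅ : ℚ) = D l (α.map c))
    (V : Finset ℕ) : ∀ k : ℕ,
    (k ≤ N → ∀ α : List ℕ, SL (k + 2) N α → (AL V k).length + α.length = l →
      (tt n M (Icc 1 k ∪ α.toFinset) ((Icc 1 k).filter (fun x => x ∉ V)) : ℚ) =
        D l ((AL V k).map h ++ α.map c)) ∧
    (k + 1 ≤ N → ∀ α : List ℕ, SL (k + 2) N α → (AL V k).length + α.length + 1 = l →
      (tt n M (Icc 1 (k + 1) ∪ α.toFinset) ((Icc 1 k).filter (fun x => x ∉ V)) : ℚ) =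
        D l ((AL V k).map h ++ h (k + 1) :: α.map c)) := by
  intro k
  induction k with
  | zero =>
    refine ⟨fun _ α hα hl => ?_, fun hN α hα hl => ?_⟩
    · rw [AL_zero] at hl ⊢
      have e1 : Icc 1 0 ∪ α.toFinset = α.toFinset := by simp
      have e2 : (Icc 1 0).filter (fun x => x ∉ V) = ∅ := by simp
      rw [e1, e2, IH α (hα.mono (by omega)) (by simpa using hl)]
      rfl
    · rw [AL_zero] at hl ⊢
      have e1 : Icc 1 (0 + 1) ∪ α.toFinset = (1 :: α).toFinset := by
        rw [union_cons]; simp
      have e2 : (Icc 1 0).filter (fun x => x ∉ V) = ∅ := by simp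
      rw [e1, e2, IH (1 :: α) (hα.cons (by omega) (by omega)) (by simp at hl ⊢; omega), h1]
      rfl
  | succ k ih =>
    obtain ⟨ih1, ih2⟩ := ih
    refine ⟨fun hk α hα hl => ?_, fun hk α hα hl => ?_⟩
    · by_cases hV : k + 1 ∈ V
      · rw [AL_succ_mem hV] at hl ⊢
        rw [filter_not_mem hV, ih2 (by omega) α (hα.mono (by omega)) (by simp at hl ⊢; omega)]
        rw [List.map_append, List.append_assoc]
        rfl
      · rw [AL_succ_not hV] at hl ⊢
        have hx : k + 1 ∈ (Icc 1 (k + 1)).filter (fun x => x ∉ V) := by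
          rw [mem_filter, mem_Icc]; exact ⟨by omega, hV⟩
        rw [peelR hM hx]
        have hin : k + 1 ∈ Icc 1 (k + 1) ∪ α.toFinset := by
          rw [mem_union, mem_Icc]; left; omega
        have hni : k + 1 + 1 ∉ Icc 1 (k + 1) ∪ α.toFinset := by
          rw [mem_union, mem_Icc, List.mem_toFinset]
          have := not_mem_of_SL hα (c := k + 1 + 1) (by omega)
          simp [this]
        rw [if_pos hin, if_neg hni, add_zero, filter_erase, union_erase_top hα (by omega),
          ih1 (by omega) α (hα.mono (by omega)) hl]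
    · by_cases hV : k + 1 ∈ V
      · rw [AL_succ_mem hV] at hl ⊢
        have hl' : (AL V k).length + 1 + α.length + 1 = l := by simpa using hl
        rw [filter_not_mem hV, union_cons, ih2 (by omega) ((k + 1 + 1) :: α)
          (hα.cons (by omega) hk) (by rw [List.length_cons]; omega)]
        rw [List.map_append, List.append_assoc]
        simp only [List.map_cons, List.map_nil, List.cons_append, List.nil_append]
        rw [h2 k, D_adj _ _ _ _ (by rw [List.length_map]; omega)]
      · rw [AL_succ_not hV] at hl ⊢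
        have hx : k + 1 ∈ (Icc 1 (k + 1)).filter (fun x => x ∉ V) := by
          rw [mem_filter, mem_Icc]; exact ⟨by omega, hV⟩
        rw [peelR hM hx]
        have hin : k + 1 ∈ Icc 1 (k + 1 + 1) ∪ α.toFinset := by
          rw [mem_union, mem_Icc]; left; omega
        have hin' : k + 1 + 1 ∈ Icc 1 (k + 1 + 1) ∪ α.toFinset := by
          rw [mem_union, mem_Icc]; left; omega
        rw [if_pos hin, if_pos hin', filter_erase, union_erase_top hα (by omega),
          union_erase_next hα]
        push_cast
        rw [ih1 (by omega) ((k + 2) :: α) (hα.cons (by omega) hk) (by rw [List.length_cons]; omega),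
          ih2 (by omega) α (hα.mono (by omega)) hl, h2 k, add_comm (h (k + 1)) (c (k + 2)),
          D_add _ _ _ _ (by rw [List.length_map]; omega)]
        rfl

/-- right half, first step, final form -/
theorem right_a' {n M N l : ℕ} (hM : 2 * n ≤ M) (hM4 : M ≤ 4 * n) (c h : ℕ → ℕ → ℚ)
    (h1 : h 1 = c 1) (h2 : ∀ x, h (x + 2) = h (x + 1) + c (x + 2))
    (IH : ∀ α : List ℕ, SL 1 N α → α.length = l → (tt n M α.toFinset ∅ : ℚ) = D l (α.map c))
    (hN : size n M = N) (V : List ℕ) (hV : SL 1 N V) (hl : V.length = l) :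
    (tt n (M + 1) (Icc 1 N \ V.toFinset) ∅ : ℚ) = D l (V.map h) := by
  have := (right_a hM c h h1 h2 IH V.toFinset N).1 (le_refl _) [] (SL_nil _ _)
    (by rw [AL_toFinset hV]; simpa using hl)
  rw [AL_toFinset hV] at this
  rw [tt_succ hM4, hN]
  simp only [List.toFinset_nil, union_empty, List.map_nil, List.append_nil] at this
  rw [← this]
  congr 2
  ext x
  simp only [mem_sdiff, mem_filter, mem_Icc, List.mem_toFinset]

/-- right half, second step -/
theorem right_b {n M N l : ℕ} (hM : 2 * n ≤ M) (h g : ℕ → ℕ → ℚ)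
    (hg : ∀ x, g (x + 1) = h (x + 1) + h (x + 2))
    (IH : ∀ V : List ℕ, SL 1 (N + 1) V → V.length = l →
      (tt n M (Icc 1 (N + 1) \ V.toFinset) ∅ : ℚ) = D l (V.map h))
    (A : Finset ℕ) : ∀ k : ℕ, k ≤ N → ∀ V : List ℕ, SL (k + 1) (N + 1) V →
      (AL A k).length + V.length = l →
      (tt n M (Icc 1 (N + 1) \ V.toFinset) ((Icc 1 k).filter (fun x => x ∈ A)) : ℚ) =
        D l ((AL A k).map g ++ V.map h) := by
  intro k
  induction k with
  | zero =>
    intro _ V hV hl
    rw [AL_zero] at hl ⊢
    have e2 : (Icc 1 0).filter (fun x => x ∈ A) = ∅ := by simp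
    rw [e2, IH V (hV.mono (by omega)) (by simpa using hl)]
    rfl
  | succ k ih =>
    intro hk V hV hl
    by_cases hA : k + 1 ∈ A
    · rw [AL_succ_mem hA] at hl ⊢
      have hx : k + 1 ∈ (Icc 1 (k + 1)).filter (fun x => x ∈ A) := by
        rw [mem_filter, mem_Icc]; exact ⟨by omega, hA⟩
      rw [peelR hM hx, filter_erase]
      push_cast
      rw [List.map_append, List.append_assoc]
      simp only [List.map_cons, List.map_nil, List.cons_append, List.nil_append]
      have hl' : (AL A k).length + 1 + V.length = l := by simpa using hl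
      rw [hg k, D_add _ _ _ _ (by rw [List.length_map]; omega)]
      congr 1
      · have hm : k + 1 ∉ V := not_mem_of_SL hV (by omega)
        have hi : k + 1 ∈ Icc 1 (N + 1) \ V.toFinset := by
          rw [mem_sdiff, mem_Icc, List.mem_toFinset]; exact ⟨by omega, hm⟩
        have e : (Icc 1 (N + 1) \ V.toFinset).erase (k + 1) =
            Icc 1 (N + 1) \ ((k + 1) :: V).toFinset := by
          ext x
          simp only [mem_erase, mem_sdiff, mem_Icc, List.mem_toFinset, List.mem_cons]
          tauto
        rw [if_pos hi, e, ih (by omega) ((k + 1) :: V) (hV.cons (by omega) (by omega))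
          (by rw [List.length_cons]; omega)]
        rfl
      · by_cases hm : k + 2 ∈ V
        · obtain ⟨W, rfl⟩ := hV.head hm
          have hni : k + 1 + 1 ∉ Icc 1 (N + 1) \ ((k + 1 + 1) :: W).toFinset := by simp
          rw [if_neg hni]
          simp only [List.map_cons]
          rw [D_eq _ _ _ (by rw [List.length_map]; simp at hl'; omega)]
        · have hi : k + 1 + 1 ∈ Icc 1 (N + 1) \ V.toFinset := by
            rw [mem_sdiff, mem_Icc, List.mem_toFinset]; exact ⟨by omega, hm⟩
          have hV' := hV.not_head hm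
          have e : (Icc 1 (N + 1) \ V.toFinset).erase (k + 1 + 1) =
              Icc 1 (N + 1) \ ((k + 1 + 1) :: V).toFinset := by
            ext x
            simp only [mem_erase, mem_sdiff, mem_Icc, List.mem_toFinset, List.mem_cons]
            tauto
          rw [if_pos hi, e, ih (by omega) ((k + 1 + 1) :: V) (hV'.cons (by omega) (by omega))
            (by rw [List.length_cons]; omega)]
          rfl
    · rw [AL_succ_not hA] at hl ⊢
      rw [filter_skip hA, ih (by omega) V (hV.mono (by omega)) hl]

/-- right half, second step, final form -/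
theorem right_b' {n M N l : ℕ} (hM : 2 * n ≤ M) (hM4 : M ≤ 4 * n) (h g : ℕ → ℕ → ℚ)
    (hg : ∀ x, g (x + 1) = h (x + 1) + h (x + 2))
    (IH : ∀ V : List ℕ, SL 1 (N + 1) V → V.length = l →
      (tt n M (Icc 1 (N + 1) \ V.toFinset) ∅ : ℚ) = D l (V.map h))
    (hN : size n M = N + 1) (α : List ℕ) (hα : SL 1 N α) (hl : α.length = l) :
    (tt n (M + 1) α.toFinset ∅ : ℚ) = D l (α.map g) := by
  have := right_b hM h g hg IH α.toFinset N (le_refl _) [] (SL_nil _ _)
    (by rw [AL_toFinset hα]; simpa using hl)
  rw [AL_toFinset hα] at this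
  rw [tt_succ hM4, hN]
  simp only [List.toFinset_nil, sdiff_empty, List.map_nil, List.append_nil] at this
  rw [← this]
  congr 2
  ext x
  simp only [mem_filter, mem_Icc, List.mem_toFinset]
  have := hα.2 x
  constructor
  · intro hx; exact ⟨this hx, hx⟩
  · exact fun hx => hx.2

end Pool.BZ
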