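import Mathlib

/-! # Determinants of lists of vectors -/

set_option autoImplicit false

namespace Pool.BZ

/-- the `m × m` matrix whose columns are the first `m` vectors of `L` -/
def mat (m : ℕ) (L : List (ℕ → ℚ)) : Matrix (Fin m) (Fin m) ℚ :=
  Matrix.of (fun i j => L.getD j.1 0 i.1)

/-- its determinant -/
def D (m : ℕ) (L : List (ℕ → ℚ)) : ℚ := (mat m L).det

/-- shift of a vector -/
def shift (v : ℕ → ℚ) : ℕ → ℚ
  | 0 => 0
  | (i + 1) => v i

/-- first basis vector -/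
def e0 : ℕ → ℚ
  | 0 => 1
  | (_ + 1) => 0

lemma mat_update {m : ℕ} (L₁ L₂ : List (ℕ → ℚ)) (w : ℕ → ℚ) (h : L₁.length < m) :
    mat m (L₁ ++ w :: L₂) =
      (mat m (L₁ ++ 0 :: L₂)).updateCol ⟨L₁.length, h⟩ (fun i => w i.1) := by
  ext i j
  rw [Matrix.updateCol_apply]
  split_ifs with hj
  · subst hj
    simp [mat]
  · have hj' : j.1 ≠ L₁.length := fun hh => hj (Fin.ext hh)
    unfold mat
    simp only [Matrix.of_apply]
    rcases lt_or_gt_of_ne hj' with h1 | h1
    · rw [List.getD_append _ _ _ _ h1, List.getD_append _ _ _ _ h1]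
    · rw [List.getD_append_right _ _ _ _ h1.le, List.getD_append_right _ _ _ _ h1.le]
      obtain ⟨k, hk⟩ : ∃ k, j.1 - L₁.length = k + 1 := ⟨j.1 - L₁.length - 1, by omega⟩
      rw [hk]
      simp

theorem D_add {m : ℕ} (L₁ L₂ : List (ℕ → ℚ)) (u v : ℕ → ℚ) (h : L₁.length < m) :
    D m (L₁ ++ (u + v) :: L₂) = D m (L₁ ++ u :: L₂) + D m (L₁ ++ v :: L₂) := by
  unfold D
  rw [mat_update L₁ L₂ (u + v) h, mat_update L₁ L₂ u h, mat_update L₁ L₂ v h,
    ← Matrix.det_updateCol_add]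
  rfl

theorem D_zero {m : ℕ} (L₁ L₂ : List (ℕ → ℚ)) (h : L₁.length < m) :
    D m (L₁ ++ 0 :: L₂) = 0 := by
  have := D_add L₁ L₂ 0 0 h
  rw [add_zero] at this
  linarith

theorem D_eq {m : ℕ} (L₁ L₂ : List (ℕ → ℚ)) (u : ℕ → ℚ) (h : L₁.length + 1 < m) :
    D m (L₁ ++ u :: u :: L₂) = 0 := by
  unfold D
  refine Matrix.det_zero_of_column_eq (i := ⟨L₁.length, by omega⟩) (j := ⟨L₁.length + 1, h⟩) ?_ ?_
  · intro hh
    have := congrArg Fin.val hh
    simp at this
  · intro i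
    unfold mat
    simp

theorem D_adj {m : ℕ} (L₁ L₂ : List (ℕ → ℚ)) (u v : ℕ → ℚ) (h : L₁.length + 1 < m) :
    D m (L₁ ++ u :: (u + v) :: L₂) = D m (L₁ ++ u :: v :: L₂) := by
  have h1 : L₁ ++ u :: (u + v) :: L₂ = (L₁ ++ [u]) ++ (u + v) :: L₂ := by simp
  have h2 : (L₁ ++ [u]).length < m := by simpa using h
  rw [h1, D_add _ _ _ _ h2]
  have h3 : (L₁ ++ [u]) ++ u :: L₂ = L₁ ++ u :: u :: L₂ := by simp
  have h4 : (L₁ ++ [u]) ++ v :: L₂ = L₁ ++ u :: v :: L₂ := by simp
  rw [h3, h4, D_eq _ _ _ h, zero_add]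

theorem D_e0 {m : ℕ} (L : List (ℕ → ℚ)) : D (m + 1) (e0 :: L.map shift) = D m L := by
  unfold D
  rw [Matrix.det_succ_column_zero, Finset.sum_eq_single 0]
  · have h1 : mat (m + 1) (e0 :: L.map shift) 0 0 = 1 := by
      unfold mat; simp [e0]
    rw [h1]
    have h2 : (mat (m + 1) (e0 :: L.map shift)).submatrix (Fin.succAbove 0) Fin.succ = mat m L := by
      ext i j
      unfold mat
      simp only [Matrix.submatrix_apply, Matrix.of_apply, Fin.zero_succAbove, Fin.val_succ,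
        List.getD_cons_succ]
      by_cases hj : j.1 < L.length
      · rw [List.getD_eq_getElem _ _ (by simpa using hj), List.getD_eq_getElem _ _ hj]
        simp [shift]
      · rw [List.getD_eq_default _ _ (by simpa using hj),
          List.getD_eq_default _ _ (by simpa using hj)]
        rfl
    rw [h2]
    simp
  · intro i _ hi
    obtain ⟨i', rfl⟩ := Fin.exists_succ_eq.2 hi
    have : mat (m + 1) (e0 :: L.map shift) i'.succ 0 = 0 := by
      unfold mat; simp [e0]
    rw [this]; simp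
  · intro h; exact absurd (Finset.mem_univ _) h

theorem D_shift {m : ℕ} (L : List (ℕ → ℚ)) : D (m + 1) (L.map shift) = 0 := by
  unfold D
  refine Matrix.det_eq_zero_of_row_eq_zero 0 ?_
  intro j
  unfold mat
  simp only [Matrix.of_apply, Fin.val_zero]
  by_cases hj : j.1 < L.length
  · rw [List.getD_eq_getElem _ _ (by simpa using hj)]
    simp [shift]
  · rw [List.getD_eq_default _ _ (by simpa using hj)]
    rfl

theorem D_nil (L : List (ℕ → ℚ)) : D 0 L = 1 := by
  unfold D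
  exact Matrix.det_isEmpty

end Pool.BZ
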