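import Pool.Agent.helper40.BZ.Grid
import Pool.Agent.helper40.BZ.Wedge

/-! # Column steps: counting with determinants -/

set_option autoImplicit false

namespace Pool.BZ

open Finset

/-- elements of `A` in `[1, c]`, increasing -/
def AL (A : Finset ℕ) (c : ℕ) : List ℕ := (List.range' 1 c).filter (fun x => x ∈ A)

lemma AL_zero (A : Finset ℕ) : AL A 0 = [] := by simp [AL]

lemma AL_succ_mem {A : Finset ℕ} {c : ℕ} (h : c + 1 ∈ A) : AL A (c + 1) = AL A c ++ [c + 1] := by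
  unfold AL
  rw [List.range'_1_concat, List.filter_append]
  simp [add_comm 1 c, h]

lemma AL_succ_not {A : Finset ℕ} {c : ℕ} (h : c + 1 ∉ A) : AL A (c + 1) = AL A c := by
  unfold AL
  rw [List.range'_1_concat, List.filter_append]
  simp [add_comm 1 c, h]

/-- strictly increasing lists with entries in `[lo, hi]` -/
def SL (lo hi : ℕ) (α : List ℕ) : Prop := α.Pairwise (· < ·) ∧ ∀ a ∈ α, lo ≤ a ∧ a ≤ hi

lemma SL.mono {lo lo' hi : ℕ} {α : List ℕ} (h : SL lo hi α) (hl : lo' ≤ lo) : SL lo' hi α :=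
  ⟨h.1, fun a ha => ⟨hl.trans (h.2 a ha).1, (h.2 a ha).2⟩⟩

lemma SL.cons {lo hi a : ℕ} {α : List ℕ} (h : SL (a + 1) hi α) (h1 : lo ≤ a) (h2 : a ≤ hi) :
    SL lo hi (a :: α) := by
  refine ⟨List.pairwise_cons.2 ⟨fun b hb => (h.2 b hb).1, h.1⟩, ?_⟩
  intro b hb
  rw [List.mem_cons] at hb
  rcases hb with rfl | hb
  · exact ⟨h1, h2⟩
  · have := h.2 b hb
    exact ⟨by omega, this.2⟩

lemma SL_nil (lo hi : ℕ) : SL lo hi [] := ⟨List.Pairwise.nil, by simp⟩

lemma SL.tail {lo hi a : ℕ} {α : List ℕ} (h : SL lo hi (a :: α)) : SL (a + 1) hi α :=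
  ⟨(List.pairwise_cons.1 h.1).2, fun b hb =>
    ⟨(List.pairwise_cons.1 h.1).1 b hb, (h.2 b (List.mem_cons_of_mem _ hb)).2⟩⟩

/-- if `lo ∈ α` then `lo` is the head -/
lemma SL.head {lo hi : ℕ} {α : List ℕ} (h : SL lo hi α) (hm : lo ∈ α) : ∃ β, α = lo :: β := by
  cases α with
  | nil => simp at hm
  | cons a β =>
    rw [List.mem_cons] at hm
    rcases hm with rfl | hm
    · exact ⟨β, rfl⟩
    · have h1 := (List.pairwise_cons.1 h.1).1 lo hm
      have h2 := (h.2 a (List.mem_cons_self)).1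
      omega

lemma SL.not_head {lo hi : ℕ} {α : List ℕ} (h : SL lo hi α) (hm : lo ∉ α) : SL (lo + 1) hi α := by
  refine ⟨h.1, fun a ha => ?_⟩
  have := h.2 a ha
  have hne : a ≠ lo := fun hh => hm (hh ▸ ha)
  omega

lemma AL_SL (A : Finset ℕ) (c : ℕ) : SL 1 c (AL A c) := by
  unfold AL
  refine ⟨List.Pairwise.filter _ List.pairwise_lt_range', ?_⟩
  intro a ha
  rw [List.mem_filter, List.mem_range'_1] at ha
  omega

lemma AL_toFinset {c : ℕ} {α : List ℕ} (h : SL 1 c α) : AL α.toFinset c = α := by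
  refine List.Perm.eq_of_pairwise (le := (· < ·)) ?_ (AL_SL _ _).1 h.1 ?_
  · intro a b _ _ h1 h2; omega
  · rw [List.perm_ext_iff_of_nodup ((AL_SL _ _).1.imp (fun h => ne_of_lt h))
      (h.1.imp (fun h => ne_of_lt h))]
    intro a
    unfold AL
    rw [List.mem_filter, List.mem_range'_1]
    have := h.2 a
    by_cases ha : a ∈ α
    · have := this ha
      simp [ha]; omega
    · simp [ha]

end Pool.BZ
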